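import Pool.Agent.Lib.MP_70c3c6_co.FG.Spec

/-!
MP_70c3c6_co, the extremal arrangements, BIJ: the chords between the two classes.
-/

set_option autoImplicit false
open Classical Polynomial

namespace Pool.Agent.Lib.MP_70c3c6_co.FG

open Pool.Agent.Lib.MP_70c3c6_co.EQ

namespace BIJM

theorem symm {ι : Type} (x y : ι → ℂ) (i j : ι) : ms x y i j = ms x y j i := by
  unfold ms
  rw [← neg_sub (y i) (y j), ← neg_sub (x i) (x j), neg_div_neg_eq]

/-- one half; `t'` is the class of `i`, `w'` the other one -/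
theorem half {ι : Type} [Fintype ι] {x y τ : ι → ℂ} {E : Finset ℂ} (S : SysG x y τ E)
    {t' w' : ℂ} (hne : t' ≠ w') (hall : ∀ i, τ i = t' ∨ τ i = w')
    (hct : ∀ i j, i ≠ j → τ i = t' → τ j = t' → ms x y i j = w')
    (hmono : ∀ i j l, j ≠ i → l ≠ i → j ≠ l → ms x y i j = ms x y i l → τ j = τ i ∧ τ l = τ i)
    (i : ι) (hi : τ i = t') :
    Set.InjOn (ms x y i) {j | τ j = w'} ∧
      ∀ e, e ∈ (Finset.univ.filter fun j => τ j = w').image (ms x y i) ↔
        e ∈ E ∧ e ≠ t' ∧ e ≠ w' := by
  have hji : ∀ j, τ j = w' → j ≠ i := by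
    intro j hj h
    rw [h, hi] at hj
    exact hne hj
  refine ⟨?_, ?_⟩
  · intro j hj l hl hjl
    by_contra h
    have h1 := hmono i j l (hji j hj) (hji l hl) h hjl
    have hj' : τ j = w' := hj
    rw [hj', hi] at h1
    exact hne h1.1.symm
  · intro e
    constructor
    · intro he
      obtain ⟨j, hj, rfl⟩ := Finset.mem_image.1 he
      have hj' : τ j = w' := (Finset.mem_filter.1 hj).2
      have hne' := hji j hj'
      refine ⟨S.chord i j hne'.symm, ?_, ?_⟩
      · have := S.tang i j hne'.symm
        rw [hi] at this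
        exact this
      · have := S.tang j i hne'
        rw [hj', symm] at this
        exact this
    · rintro ⟨he, het, hew⟩
      obtain ⟨j, hj, hje⟩ := S.cover i e he (by rw [hi]; exact het)
      refine Finset.mem_image.2 ⟨j, Finset.mem_filter.2 ⟨Finset.mem_univ _, ?_⟩, hje⟩
      rcases hall j with h | h
      · exfalso
        apply hew
        rw [← hje]
        exact hct i j hj.symm hi h
      · exact h

end BIJM

open BIJM in
theorem specBIJ : SpecBIJ := by
  intro ι _ x y τ E t w S T
  refine ⟨fun i hi => ?_, fun i hi => ?_⟩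
  · have h := half S T.ne T.all T.ct T.mono i hi
    refine ⟨h.1, ?_⟩
    ext e
    rw [h.2 e, Finset.mem_erase, Finset.mem_erase]
    tauto
  · have h := half S T.ne.symm (fun i => (T.all i).symm) T.cw T.mono i hi
    refine ⟨h.1, ?_⟩
    ext e
    rw [h.2 e, Finset.mem_erase, Finset.mem_erase]
    tauto

end Pool.Agent.Lib.MP_70c3c6_co.FG
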