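import Pool.Agent.Lib.MP_70c3c6_co.FG.Spec

/-!
MP_70c3c6_co, module BKG: the second family attains equality
-/

set_option autoImplicit false
open Classical Polynomial

namespace Pool.Agent.Lib.MP_70c3c6_co.FG

open Pool.Agent.Lib.MP_70c3c6_co.EQ

theorem specBKG (hPNT : SpecPNT) (hMDG : SpecMDG) (hDBG : SpecDBG) (hLOW : SpecLOW) :
    SpecBKG := by
  intro A hA hS
  obtain ⟨r, hr, hcard, M, hI⟩ := hS
  obtain ⟨p, hp0, hp⟩ := hPNT M
  have hM : Mod A p := hMDG A r M p hA (by omega) hcard hI hp0 hp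
  exact ⟨p, hM, le_antisymm (hDBG A r M p hA hr hcard hI hp) (hLOW A p hA hM)⟩

end Pool.Agent.Lib.MP_70c3c6_co.FG
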