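import Pool.Agent.Lib.MP_70c3c6_co.FG.Spec
import Pool.Agent.Lib.MP_70c3c6_co.EQ.BCK

/-!
MP_70c3c6_co, FG, BKP: the regular polygon has a modular point with the minimal number of double
points.
-/

set_option autoImplicit false
open Classical

namespace Pool.Agent.Lib.MP_70c3c6_co.FG

open Pool.Agent.Lib.MP_70c3c6_co.EQ

namespace BKPM

lemma ndep {a b c : V3} {α β γ : ℂ} (h0 : α • a + β • b + γ • c = 0) (hα : α ≠ 0) :
    ¬ LinearIndependent ℂ ![a, b, c] := fun h => hα (BCKM.dep3 h h0).1

lemma rep1 (a b : V3) : ¬ LinearIndependent ℂ ![a, b, a] := by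
  refine ndep (α := 1) (β := 0) (γ := -1) ?_ one_ne_zero
  rw [one_smul, zero_smul, add_zero, neg_smul, one_smul, add_neg_cancel]

lemma rep2 (a b : V3) : ¬ LinearIndependent ℂ ![a, b, b] := by
  intro h
  have h1 := BCKM.dep3 h (α := 0) (β := 1) (γ := -1) (by
    rw [zero_smul, zero_add, neg_smul, one_smul, add_neg_cancel])
  exact one_ne_zero h1.2.1

end BKPM

open BKPM BCKM in
/-- BKP -/
theorem specBKP (hPNT : SpecPNT) (hLOW : SpecLOW) (hBCK : SpecBCK) : SpecBKP := by
  intro A hA hstd
  have hB := hBCK A hA hstd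
  obtain ⟨n, hn, hcard, M, hM⟩ := hstd
  choose! z hz c hc hM using hM
  obtain ⟨p, hp, hdp⟩ := hPNT M
  have hn0 : 0 < n := by omega
  have hz0 : ∀ a ∈ A, z a ≠ 0 := by
    intro a ha h0
    have := hz a ha
    rw [h0, zero_pow hn0.ne'] at this
    exact zero_ne_one this
  set L := A.filter fun a => M a = c a • ![z a, (z a)⁻¹, 1] with hL
  set W := A.filter fun a => M a = c a • ![1, -z a, 0] with hW
  have mL : ∀ a, a ∈ L ↔ a ∈ A ∧ M a = c a • ![z a, (z a)⁻¹, 1] := fun a => Finset.mem_filter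
  have mW : ∀ a, a ∈ W ↔ a ∈ A ∧ M a = c a • ![1, -z a, 0] := fun a => Finset.mem_filter
  have hLW : ∀ a ∈ L, a ∉ W := by
    intro a ha hw
    have h1 := ((mL a).mp ha).2
    have h2 := ((mW a).mp hw).2
    rw [h1] at h2
    have h3 := congrFun h2 2
    simp at h3
    exact hc a ((mL a).mp ha).1 h3
  have hor : ∀ a ∈ A, a ∈ L ∨ a ∈ W := by
    intro a ha
    rcases hM a ha with h | h
    · exact Or.inl ((mL a).mpr ⟨ha, h⟩)
    · exact Or.inr ((mW a).mpr ⟨ha, h⟩)
  have hunion : L ∪ W = A := by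
    ext a
    rw [Finset.mem_union]
    exact ⟨fun h => h.elim (fun h => ((mL a).mp h).1) fun h => ((mW a).mp h).1, hor a⟩
  have hdisj : Disjoint L W := Finset.disjoint_left.mpr hLW
  have hsum : L.card + W.card = 2 * n := by
    rw [← Finset.card_union_of_disjoint hdisj, hunion, hcard]
  -- injectivity
  have injL : Set.InjOn z (L : Set V3) := by
    intro a ha b hb hab
    by_contra hne
    obtain ⟨ha1, ha2⟩ := (mL a).mp ha
    obtain ⟨hb1, hb2⟩ := (mL b).mp hb
    have h0 : c b • a + (-c a) • b = 0 := by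
      apply M.injective
      rw [map_zero, map_add, map_smul, map_smul, ha2, hb2, hab]
      funext i
      simp only [Pi.add_apply, Pi.smul_apply, smul_eq_mul, Pi.zero_apply]
      ring
    exact hc b hb1 (dep2 (hA.li a ha1 b hb1 hne) h0).1
  have injW : Set.InjOn z (W : Set V3) := by
    intro a ha b hb hab
    by_contra hne
    obtain ⟨ha1, ha2⟩ := (mW a).mp ha
    obtain ⟨hb1, hb2⟩ := (mW b).mp hb
    have h0 : c b • a + (-c a) • b = 0 := by
      apply M.injective
      rw [map_zero, map_add, map_smul, map_smul, ha2, hb2, hab]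
      funext i
      simp only [Pi.add_apply, Pi.smul_apply, smul_eq_mul, Pi.zero_apply]
      ring
    exact hc b hb1 (dep2 (hA.li a ha1 b hb1 hne) h0).1
  -- the roots of unity
  set R : Finset ℂ := Polynomial.nthRootsFinset n (1 : ℂ) with hR
  have mR : ∀ x, x ∈ R ↔ x ^ n = 1 := fun x => Polynomial.mem_nthRootsFinset hn0 1
  have hRc : R.card ≤ n := by
    rw [hR, Polynomial.nthRootsFinset]
    exact (Multiset.toFinset_card_le _).trans (Polynomial.card_nthRoots n 1)
  have sL : L.image z ⊆ R := by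
    intro x hx
    obtain ⟨a, ha, rfl⟩ := Finset.mem_image.mp hx
    exact (mR _).mpr (hz a ((mL a).mp ha).1)
  have sW : W.image z ⊆ R := by
    intro x hx
    obtain ⟨a, ha, rfl⟩ := Finset.mem_image.mp hx
    exact (mR _).mpr (hz a ((mW a).mp ha).1)
  have cL : (L.image z).card = L.card := Finset.card_image_of_injOn injL
  have cW : (W.image z).card = W.card := Finset.card_image_of_injOn injW
  have dL := Finset.card_le_card sL
  have dW := Finset.card_le_card sW
  have eW : W.image z = R := Finset.eq_of_subset_of_card_le sW (by omega)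
  have surW : ∀ x : ℂ, x ^ n = 1 → ∃ a ∈ W, z a = x := by
    intro x hx
    have : x ∈ W.image z := by rw [eW]; exact (mR x).mpr hx
    exact Finset.mem_image.mp this
  -- the point p
  have pL : ∀ a ∈ L, dotProduct a p ≠ 0 := by
    intro a ha h0
    obtain ⟨ha1, ha2⟩ := (mL a).mp ha
    rw [hdp a, ha2] at h0
    simp at h0
    exact hc a ha1 h0
  have pW : ∀ a ∈ W, dotProduct a p = 0 := by
    intro a ha
    obtain ⟨ha1, ha2⟩ := (mW a).mp ha
    rw [hdp a, ha2]
    simp
  have hAq : Aq A p = L := by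
    ext a
    unfold Aq
    rw [Finset.mem_filter]
    constructor
    · rintro ⟨h1, h2⟩
      exact (hor a h1).resolve_right fun h => h2 (pW a h)
    · intro h
      exact ⟨((mL a).mp h).1, pL a h⟩
  have hmod : Mod A p := by
    refine ⟨hp, ?_, ?_⟩
    · obtain ⟨a, ha, b, hb, hab⟩ := Finset.one_lt_card.mp (show 1 < W.card by omega)
      exact ⟨a, ((mW a).mp ha).1, b, ((mW b).mp hb).1, hab, pW a ha, pW b hb⟩
    · intro a ha b hb hab hn
      rcases hor a ha with ha' | ha'
      · rcases hor b hb with hb' | hb'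
        · obtain ⟨ha1, ha2⟩ := (mL a).mp ha'
          obtain ⟨hb1, hb2⟩ := (mL b).mp hb'
          obtain ⟨d, hd, hdz⟩ := surW (z a * z b)⁻¹ (by
            rw [inv_pow, mul_pow, hz a ha1, hz b hb1]; simp)
          obtain ⟨hd1, hd2⟩ := (mW d).mp hd
          have hza := hz0 a ha1
          have hzb := hz0 b hb1
          have h1 := rel1 (hc a ha1) (hc b hb1) (hc d hd1) hza hzb
            (by rw [hdz]; field_simp) M ha2 hb2 hd2
          exact ⟨d, hd1, pW d hd, ndep h1 (inv_ne_zero (hc a ha1))⟩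
        · exact ⟨b, hb, pW b hb', rep2 a b⟩
      · exact ⟨a, ha, pW a ha', rep1 a b⟩
  refine ⟨p, hmod, le_antisymm ?_ (hLOW A p hA hmod)⟩
  rw [hAq]
  omega

end Pool.Agent.Lib.MP_70c3c6_co.FG
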