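import Pool.Agent.Lib.MP_70c3c6_co.FG.Spec

/-!
# MP_70c3c6_co, FG: module CEN (the slope of a half turn is the centroid)
-/

set_option autoImplicit false
open Classical Polynomial

namespace Pool.Agent.Lib.MP_70c3c6_co.FG

open Pool.Agent.Lib.MP_70c3c6_co.EQ

namespace CENM

/-- the involution in the coordinate `1 / (s - t)` -/
theorem half {e s s' t : ℂ} (het : e ≠ t) (hst : s ≠ t) (hs't : s' ≠ t) (hse : s ≠ e)
    (hs'e : s' ≠ e) (h : (e - s)⁻¹ + (e - s')⁻¹ = (e - t)⁻¹ + (e - t)⁻¹) :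
    (s - t)⁻¹ + (s' - t)⁻¹ = (e - t)⁻¹ + (e - t)⁻¹ := by
  have h1 : e - t ≠ 0 := sub_ne_zero.2 het
  have h2 : s - t ≠ 0 := sub_ne_zero.2 hst
  have h3 : s' - t ≠ 0 := sub_ne_zero.2 hs't
  have h4 : e - s ≠ 0 := sub_ne_zero.2 (Ne.symm hse)
  have h5 : e - s' ≠ 0 := sub_ne_zero.2 (Ne.symm hs'e)
  field_simp at h ⊢
  linear_combination h

end CENM

open CENM in
theorem specCEN : SpecCEN := by
  intro T E lam hPT t ht e he het hlam
  have key : ∀ s ∈ T.erase t, ∃ s' ∈ T.erase t,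
      (s - t)⁻¹ + (s' - t)⁻¹ = (e - t)⁻¹ + (e - t)⁻¹ := by
    intro s hs
    rw [Finset.mem_erase] at hs
    by_cases hse : s = e
    · subst hse
      exact ⟨s, Finset.mem_erase.2 hs, rfl⟩
    · obtain ⟨s', hs', hs'e, h⟩ := hPT e he s hs.2 hse
      rw [← hlam] at h
      have hs't : s' ≠ t := by
        rintro rfl
        have h1 := add_right_cancel h
        rw [inv_inj] at h1
        exact hs.1 (sub_right_injective h1)
      exact ⟨s', Finset.mem_erase.2 ⟨hs't, hs'⟩, half het hs.1 hs't hse hs'e h⟩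
  choose! g hg1 hg2 using key
  have hinj : Set.InjOn g (T.erase t) := by
    intro a ha b hb hab
    have h1 := hg2 a ha
    have h2 := hg2 b hb
    rw [hab, ← h2] at h1
    have h3 := add_right_cancel h1
    rw [inv_inj] at h3
    exact sub_left_injective h3
  have himg : (T.erase t).image g = T.erase t := by
    apply Finset.eq_of_subset_of_card_le
    · intro a ha
      obtain ⟨b, hb, rfl⟩ := Finset.mem_image.1 ha
      exact hg1 b hb
    · rw [Finset.card_image_of_injOn hinj]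
  have hsum : ∑ s ∈ T.erase t, (g s - t)⁻¹ = ∑ s ∈ T.erase t, (s - t)⁻¹ := by
    conv_rhs => rw [← himg]
    rw [Finset.sum_image hinj]
  have hadd : ∑ s ∈ T.erase t, ((s - t)⁻¹ + (g s - t)⁻¹) =
      ∑ s ∈ T.erase t, ((e - t)⁻¹ + (e - t)⁻¹) := Finset.sum_congr rfl hg2
  rw [Finset.sum_add_distrib, hsum, Finset.sum_const, nsmul_eq_mul] at hadd
  linear_combination -(1 / 2) * hadd

end Pool.Agent.Lib.MP_70c3c6_co.FG
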