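import Pool.Agent.Lib.MP_70c3c6_co.FG.Spec

/-!
# Module CLF: the polynomial `c` is `W' - (m - 1) W / (X - t)`.
-/

set_option autoImplicit false
open Classical Polynomial

namespace Pool.Agent.Lib.MP_70c3c6_co.FG

open Pool.Agent.Lib.MP_70c3c6_co.EQ

theorem specCLF : SpecCLF := by
  intro E t c ht hdeg hlead hval e he het
  obtain ⟨G, hG⟩ : ∃ G : ℂ[X], G = ∏ e ∈ E.erase t, (X - C e) := ⟨_, rfl⟩
  have hW : WW E = (X - C t) * G := by
    rw [hG, WW, Finset.mul_prod_erase E (fun e => X - C e) ht]
  have hGm : G.Monic := by
    rw [hG]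
    exact monic_prod_of_monic _ _ (fun i _ => monic_X_sub_C i)
  have hGd : G.natDegree = E.card - 1 := by
    rw [hG, natDegree_prod_of_monic _ _ (fun i _ => monic_X_sub_C i)]
    simp [Finset.card_erase_of_mem ht]
  have hWm : (WW E).Monic := monic_prod_of_monic _ _ (fun i _ => monic_X_sub_C i)
  have hWd : (WW E).natDegree = E.card := by
    rw [WW, natDegree_prod_of_monic _ _ (fun i _ => monic_X_sub_C i)]
    simp
  have hcard : 1 ≤ E.card := Finset.card_pos.mpr ⟨t, ht⟩
  have hG0 : ∀ x ∈ E.erase t, G.eval x = 0 := by
    intro x hx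
    rw [hG, eval_prod]
    exact Finset.prod_eq_zero hx (by simp)
  have hD : c - derivative (WW E) + C ((E.card : ℂ) - 1) * G = 0 := by
    apply eq_zero_of_degree_lt_of_eval_finset_eq_zero (E.erase t)
    · rw [degree_lt_iff_coeff_zero]
      intro k hk
      rw [Finset.card_erase_of_mem ht] at hk
      rw [coeff_add, coeff_sub, coeff_C_mul, coeff_derivative]
      rcases eq_or_lt_of_le hk with h | h
      · subst h
        have w1 : (WW E).coeff (E.card - 1 + 1) = 1 := by
          rw [Nat.sub_add_cancel hcard]
          have := hWm.coeff_natDegree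
          rwa [hWd] at this
        have g1 : G.coeff (E.card - 1) = 1 := by
          have := hGm.coeff_natDegree
          rwa [hGd] at this
        have n1 : ((E.card - 1 : ℕ) : ℂ) = (E.card : ℂ) - 1 := by
          rw [Nat.cast_sub hcard, Nat.cast_one]
        rw [w1, g1, hlead, n1]
        ring
      · have c0 : c.coeff k = 0 := coeff_eq_zero_of_natDegree_lt (by omega)
        have w0 : (WW E).coeff (k + 1) = 0 := coeff_eq_zero_of_natDegree_lt (by omega)
        have g0 : G.coeff k = 0 := coeff_eq_zero_of_natDegree_lt (by omega)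
        rw [c0, w0, g0]
        ring
    · intro x hx
      rw [eval_add, eval_sub, eval_mul, eval_C, hG0 x hx,
        hval x (Finset.mem_of_mem_erase hx) (Finset.ne_of_mem_erase hx)]
      ring
  have hc : c = derivative (WW E) - C ((E.card : ℂ) - 1) * G := by
    linear_combination hD
  have hWe : (derivative (WW E)).eval e = (e - t) * (derivative G).eval e := by
    rw [hW, derivative_mul, eval_add, eval_mul, eval_mul,
      hG0 e (Finset.mem_erase.mpr ⟨het, he⟩)]
    simp
  have hce : (derivative c).eval e = (derivative (derivative (WW E))).eval e -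
      ((E.card : ℂ) - 1) * (derivative G).eval e := by
    rw [hc, derivative_sub, derivative_mul, derivative_C, zero_mul, zero_add, eval_sub,
      eval_mul, eval_C]
  rw [hce, hWe]
  ring

end Pool.Agent.Lib.MP_70c3c6_co.FG
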