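import Pool.Agent.Lib.MP_70c3c6_co.FG.Spec
import Pool.Agent.Lib.MP_70c3c6_co.OD.CNS

/-!
# FG, module CNG: the combinatorial content of t_2 = the number of the lines off p
-/

set_option autoImplicit false
open Classical

namespace Pool.Agent.Lib.MP_70c3c6_co.FG

open Pool.Agent.Lib.MP_70c3c6_co.EQ

open Pool.Agent.Lib.MP_70c3c6_co.EQ.CNTM MPss Pool.Agent.Lib.MP_70c3c6_co.OD.CNSM in
theorem specCNG : SpecCNG := by
  intro A p hA hM hF
  obtain ⟨c1, hc1, c2, hc2, hc12, hp1, hp2⟩ := hM.two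
  have hA'ne := Aq_pos hA hM
  have hex : ∀ a ∈ Aq A p, ∃ c, c ∈ good A p a := by
    intro a ha
    obtain ⟨haA, hap⟩ := mem_Aq.1 ha
    obtain ⟨c, hc, hcp, h⟩ := exists_double hA.nz hA.li hc1 hc2 hc12 hp1 hp2 hM.m haA hap
    exact ⟨c, mem_good.2 ⟨⟨hc, hcp⟩, h⟩⟩
  have hg1 : ∀ a ∈ Aq A p, 1 ≤ (good A p a).card := fun a ha => Finset.card_pos.2 (hex a ha)
  have hg2 : ∀ a ∈ Aq A p, (Ap A p).card + 1 ≤ (good A p a).card + (Aq A p).card := by
    intro a ha
    obtain ⟨haA, hap⟩ := mem_Aq.1 ha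
    exact count_line hA.nz hA.li haA hap
  have htot : A.card = (Ap A p).card + (Aq A p).card :=
    (Finset.card_filter_add_card_filter_not (s := A) (fun c => dotProduct c p = 0)).symm
  have hm2 : 2 ≤ (Ap A p).card := by
    have h1 : ({c1, c2} : Finset EQ.V3) ⊆ Ap A p := by
      intro x hx
      rcases Finset.mem_insert.1 hx with rfl | hx
      · exact mem_Ap.2 ⟨hc1, hp1⟩
      · rw [Finset.mem_singleton.1 hx]
        exact mem_Ap.2 ⟨hc2, hp2⟩
    have h2 := Finset.card_le_card h1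
    rwa [Finset.card_pair hc12] at h2
  have hs0 := two_sum_le (p := p) hA ∅ (Finset.empty_subset _) (by simp)
  rw [Finset.card_empty, add_zero, hF] at hs0
  have hs2 : (Ap A p).card = 2 →
      2 * ∑ a ∈ Aq A p, (good A p a).card + 2 ≤ 2 * (Aq A p).card := by
    intro hm
    have h1 := two_sum_le (p := p) hA _ (offDiag_sub hA hm) fun x hx =>
      ⟨(mem_Ap.1 (Finset.mem_offDiag.1 hx).1).2, (mem_Ap.1 (Finset.mem_offDiag.1 hx).2.1).2⟩
    rw [Finset.offDiag_card, hm, hF] at h1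
    omega
  have hsum1 : (Aq A p).card ≤ ∑ a ∈ Aq A p, (good A p a).card := by
    have h1 : (Aq A p).card • 1 ≤ ∑ a ∈ Aq A p, (good A p a).card :=
      Finset.card_nsmul_le_sum _ _ _ hg1
    rwa [smul_eq_mul, mul_one] at h1
  have hgood : ∀ a ∈ Aq A p, (good A p a).card ≤ 1 := by
    intro a ha
    by_contra hcon
    have h1 : ∑ x ∈ Aq A p, 1 < ∑ x ∈ Aq A p, (good A p x).card :=
      Finset.sum_lt_sum hg1 ⟨a, ha, by omega⟩
    rw [Finset.sum_const, smul_eq_mul, mul_one] at h1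
    omega
  have hmk : (Ap A p).card ≤ (Aq A p).card := by
    obtain ⟨a, ha⟩ := Finset.card_pos.1 hA'ne
    have h1 := hg2 a ha
    have h2 := hgood a ha
    omega
  have hm3 : 3 ≤ (Ap A p).card := by
    by_contra hcon
    have h1 := hs2 (by omega)
    omega
  rcases hmk.eq_or_lt with heq | hlt
  · left
    rw [hF, htot, heq]
    omega
  right
  choose! t ht using hex
  refine ⟨t, hlt, hm3, fun a ha => mem_Ap.2 (mem_good.1 (ht a ha)).1, ?_, ?_⟩
  · intro a ha b hb hba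
    obtain ⟨hbA, hbp⟩ := mem_Aq.1 hb
    exact (mem_good.1 (ht a ha)).2 b hbA hbp hba
  · intro a ha c hc hct
    by_contra hcon
    push Not at hcon
    apply hct
    have h1 : c ∈ good A p a := mem_good.2 ⟨mem_Ap.1 hc, fun b hbA hbp hba =>
      hcon b (mem_Aq.2 ⟨hbA, hbp⟩) hba⟩
    exact Finset.card_le_one.1 (hgood a ha) c h1 (t a) (ht a ha)

end Pool.Agent.Lib.MP_70c3c6_co.FG
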