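import Pool.Agent.Lib.MP_70c3c6_co.FG.Spec
import Pool.Agent.Lib.MP_70c3c6_co.EQ.CRD

/-! MP_70c3c6_co, the extremal arrangements: the module CRG (coordinates). -/

set_option autoImplicit false
open Classical

namespace Pool.Agent.Lib.MP_70c3c6_co.FG

open Pool.Agent.Lib.MP_70c3c6_co.EQ

open MPss CRDM in
theorem specCRG : SpecCRG := by
  intro A p t hA hm ht
  obtain ⟨a0, ha0, a1, ha1, h01⟩ := Finset.one_lt_card.1 (show 1 < (Aq A p).card by
    have := ht.lt
    have := ht.three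
    omega)
  obtain ⟨c1, hc1, r, hr, hv⟩ := exists_line hA hm ha0 ha1 h01
  obtain ⟨c2, hc2, h12⟩ := Finset.exists_mem_ne (show 1 < (Ap A p).card by
    have := ht.three
    omega) c1
  obtain ⟨f0, f1, e1, e2, e3, e4, hker, hne⟩ := forms hA ha0 hc1 hc2 h12.symm hr hv
  have q0 : ∀ a ∈ Aq A p, dotProduct a p ≠ 0 := fun a ha => (mem_Aq.1 ha).2
  have hvv : ∀ (f : EQ.V3 →ₗ[ℂ] ℂ) (a b : EQ.V3), f (vv p a b) =
      f b / dotProduct b p - f a / dotProduct a p := by
    intro f a b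
    rw [vv, map_sub, map_smul, map_smul, smul_eq_mul, smul_eq_mul, div_eq_inv_mul, div_eq_inv_mul]
  -- slopes are injective
  have hinj : ∀ c ∈ Ap A p, ∀ c' ∈ Ap A p, f1 c / f0 c = f1 c' / f0 c' → c = c' := by
    intro c hc c' hc' h
    by_contra hcc
    rw [div_eq_div_iff (hne c hc) (hne c' hc')] at h
    have h1 : f0 c' • c - f0 c • c' = 0 := by
      refine hker _ ?_ ?_ ?_
      · rw [map_sub, map_smul, map_smul, smul_eq_mul, smul_eq_mul]
        ring
      · rw [map_sub, map_smul, map_smul, smul_eq_mul, smul_eq_mul]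
        linear_combination h
      · rw [sub_dotProduct, smul_dotProduct, smul_dotProduct, (mem_Ap.1 hc).2, (mem_Ap.1 hc').2]
        simp
    have h2 := (li2_iff c c').1 (hA.li c (mem_Ap.1 hc).1 c' (mem_Ap.1 hc').1 hcc) (f0 c')
      (-f0 c) (by rw [← h1, neg_smul]; abel)
    exact hne c' hc' h2.1
  -- the slope of a chord along a line through p
  have hslope : ∀ a b c : EQ.V3, c ∈ Ap A p → ∀ s : ℂ, s ≠ 0 → vv p a b = s • c →
      f0 b / dotProduct b p - f0 a / dotProduct a p ≠ 0 ∧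
      (f1 b / dotProduct b p - f1 a / dotProduct a p) /
        (f0 b / dotProduct b p - f0 a / dotProduct a p) = f1 c / f0 c := by
    intro a b c hc s hs hsv
    refine ⟨?_, ?_⟩
    · rw [← hvv f0 a b, hsv, map_smul, smul_eq_mul]
      exact mul_ne_zero hs (hne c hc)
    · rw [← hvv f0 a b, ← hvv f1 a b, hsv, map_smul, map_smul, smul_eq_mul, smul_eq_mul,
        mul_div_mul_left _ _ hs]
  -- chords
  have hch : ∀ a ∈ Aq A p, ∀ b ∈ Aq A p, a ≠ b → ∃ c ∈ Ap A p,
      ¬ LinearIndependent ℂ ![a, c, b] ∧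
      f0 b / dotProduct b p - f0 a / dotProduct a p ≠ 0 ∧
      (f1 b / dotProduct b p - f1 a / dotProduct a p) /
        (f0 b / dotProduct b p - f0 a / dotProduct a p) = f1 c / f0 c := by
    intro a ha b hb hab
    obtain ⟨c, hc, s, hs, hsv⟩ := exists_line hA hm ha hb hab
    exact ⟨c, hc, not_li (q0 b hb) hsv, hslope a b c hc s hs hsv⟩
  have hcard : ((Ap A p).image fun c => f1 c / f0 c).card = (Ap A p).card :=
    Finset.card_image_of_injOn fun c hc c' hc' h => hinj c hc c' hc' h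
  refine ⟨f0, f1, fun a => f1 (t a.1) / f0 (t a.1), (Ap A p).image fun c => f1 c / f0 c,
    hker, ?_, hcard, ?_⟩
  · refine ⟨?_, ?_, ?_, ?_, ?_, ?_, ?_⟩
    · rintro ⟨a, ha⟩ ⟨b, hb⟩ h
      by_contra hab
      have hab' : a ≠ b := fun h' => hab (Subtype.ext h')
      obtain ⟨c, -, -, h1, -⟩ := hch a ha b hb hab'
      exact h1 (sub_eq_zero.2 h.symm)
    · rw [hcard, Fintype.card_coe]
      exact ht.lt
    · rw [hcard]
      exact ht.three
    · intro a
      exact Finset.mem_image.2 ⟨t a.1, ht.mem a.1 a.2, rfl⟩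
    · rintro ⟨a, ha⟩ ⟨b, hb⟩ hab
      have hab' : a ≠ b := fun h' => hab (Subtype.ext h')
      obtain ⟨c, hc, -, -, h1⟩ := hch a ha b hb hab'
      exact Finset.mem_image.2 ⟨c, hc, h1.symm⟩
    · rintro ⟨a, ha⟩ ⟨b, hb⟩ hab h
      have hab' : a ≠ b := fun h' => hab (Subtype.ext h')
      obtain ⟨c, hc, h2, -, h1⟩ := hch a ha b hb hab'
      have h3 : c = t a := hinj c hc (t a) (ht.mem a ha) (h1.symm.trans h)
      rw [h3] at h2
      exact h2 (ht.tang a ha b hb hab'.symm)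
    · rintro ⟨a, ha⟩ e he hne'
      obtain ⟨c, hc, rfl⟩ := Finset.mem_image.1 he
      have hct : c ≠ t a := by
        rintro rfl
        exact hne' rfl
      obtain ⟨b, hb, hba, hli⟩ := ht.cover a ha c hc hct
      have h2 := hA.li a (mem_Aq.1 ha).1 b (mem_Aq.1 hb).1 hba.symm
      have h3 : ¬ LinearIndependent ℂ ![a, b, c] := by
        intro h
        apply hli
        rw [li3_iff] at h ⊢
        intro u v w huvw
        have := h u w v (by rw [← huvw]; abel)
        exact ⟨this.1, this.2.2, this.2.1⟩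
      obtain ⟨s, hs⟩ := vv_prop (q0 a ha) (q0 b hb) (mem_Ap.1 hc).2 (hA.nz c (mem_Ap.1 hc).1)
        h2 h3
      have hs0 : s ≠ 0 := by
        rintro rfl
        exact vv_ne (q0 b hb) h2 (by rw [hs, zero_smul])
      refine ⟨⟨b, hb⟩, fun h => hba (congrArg Subtype.val h), ?_⟩
      exact (hslope a b c hc s hs0 hs).2
  · intro c hc
    exact ⟨hne c hc, Finset.mem_image.2 ⟨c, hc, rfl⟩⟩

end Pool.Agent.Lib.MP_70c3c6_co.FG
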