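import Pool.Agent.Lib.MP_70c3c6_co.FG.Spec

/-!
# MP_70c3c6_co, FG, module CRX: the crossing of two lines
-/

set_option autoImplicit false
open Classical Polynomial

namespace Pool.Agent.Lib.MP_70c3c6_co.FG

open Pool.Agent.Lib.MP_70c3c6_co.EQ

namespace CRXM

theorem half (hT : SpecTAY) (V : ℂ[X]) (H : ℂ[X][X]) (a b a' b' e : ℂ) (haa : a ≠ a')
    (hab : a * e + b = a' * e + b')
    (h1 : H.eval (C a * X + C b) = C a * ((X - C e) * V))
    (h2 : H.eval (C a' * X + C b') = C a' * ((X - C e) * V)) :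
    ((derivative H).eval (C a * X + C b)).eval e = V.eval e ∧
    (derivative V).eval e = (derivative ((derivative H).eval (C a * X + C b))).eval e +
      1 / 2 * (a' - a) * ((derivative (derivative H)).eval (C a * X + C b)).eval e := by
  obtain ⟨δ, hδ⟩ : ∃ δ : ℂ[X], δ = C (a' - a) * (X - C e) := ⟨_, rfl⟩
  have hf : C a' * X + C b' = (C a * X + C b) + δ := by
    have hb : b' = b + (a - a') * e := by linear_combination -hab
    rw [hδ, hb]
    simp only [map_add, map_sub, map_mul]
    ring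
  obtain ⟨R, hR⟩ := hT H (C a * X + C b) δ
  rw [← hf, h1, h2] at hR
  have hδ0 : δ ≠ 0 := by
    rw [hδ]
    refine mul_ne_zero ?_ (X_sub_C_ne_zero e)
    rw [Ne, C_eq_zero, sub_eq_zero]
    exact fun h => haa h.symm
  obtain ⟨c, hc⟩ : ∃ c : ℂ[X], c = (derivative H).eval (C a * X + C b) := ⟨_, rfl⟩
  obtain ⟨s, hs⟩ : ∃ s : ℂ[X], s = (derivative (derivative H)).eval (C a * X + C b) := ⟨_, rfl⟩
  rw [← hc, ← hs] at hR
  rw [← hc, ← hs]
  have hV : V = c + C (1 / 2) * δ * s + δ ^ 2 * R := by
    apply mul_left_cancel₀ hδ0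
    have e1 : δ * V = C a' * ((X - C e) * V) - C a * ((X - C e) * V) := by
      rw [hδ, map_sub]
      ring
    rw [e1, hR]
    ring
  have hδe : δ.eval e = 0 := by
    rw [hδ]
    simp
  have hδd : (derivative δ).eval e = a' - a := by
    rw [hδ]
    simp
  constructor
  · rw [hV]
    simp [hδe]
  · rw [hV]
    simp [hδe, hδd, derivative_mul, derivative_pow]

theorem eval_dep (P : ℂ[X][X]) (f f' : ℂ[X]) (e : ℂ) (h : f.eval e = f'.eval e) :
    (P.eval f).eval e = (P.eval f').eval e := by
  have h1 : ∀ g : ℂ[X], (P.eval g).eval e = P.eval₂ (evalRingHom e) (g.eval e) := by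
    intro g
    exact (Polynomial.eval₂_at_apply (evalRingHom e) g).symm
  rw [h1, h1, h]

end CRXM

theorem specCRX (hT : SpecTAY) : SpecCRX := by
  intro W H a b a' b' e haa hab hW h1 h2
  obtain ⟨V, hV⟩ : X - C e ∣ W := dvd_iff_isRoot.mpr hW
  rw [hV] at h1 h2
  obtain ⟨p1, p2⟩ := CRXM.half hT V H a b a' b' e haa hab h1 h2
  obtain ⟨q1, q2⟩ := CRXM.half hT V H a' b' a b e haa.symm hab.symm h2 h1
  have hs := CRXM.eval_dep (derivative (derivative H)) (C a * X + C b) (C a' * X + C b') e (by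
    simp only [eval_add, eval_mul, eval_C, eval_X]
    exact hab)
  constructor
  · rw [p1, hV]
    simp [derivative_mul]
  · have e2 : (derivative (derivative W)).eval e = 2 * (derivative V).eval e := by
      rw [hV]
      simp [derivative_mul]
      ring
    rw [e2]
    rw [hs] at p2
    linear_combination -p2 - q2

end Pool.Agent.Lib.MP_70c3c6_co.FG
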