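import Pool.Agent.Lib.MP_70c3c6_co.FG.Spec

/-!
# DBG: the double points of the standard form
-/

set_option autoImplicit false
open Classical

namespace Pool.Agent.Lib.MP_70c3c6_co.FG

open Pool.Agent.Lib.MP_70c3c6_co.EQ

namespace DBGM

lemma dep2 {a b : V3} (h : LinearIndependent ℂ ![a, b]) {α β : ℂ} (h0 : α • a + β • b = 0) :
    α = 0 ∧ β = 0 := LinearIndependent.pair_iff.mp h α β h0

lemma dep3 {a b c : V3} (h : LinearIndependent ℂ ![a, b, c]) {α β γ : ℂ}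
    (h0 : α • a + β • b + γ • c = 0) : α = 0 ∧ β = 0 ∧ γ = 0 := by
  have h1 := Fintype.linearIndependent_iff.mp h ![α, β, γ] (by
    rw [Fin.sum_univ_three]
    exact h0)
  exact ⟨h1 0, h1 1, h1 2⟩

lemma swap3 {a b c : V3} (h : LinearIndependent ℂ ![a, b, c]) :
    LinearIndependent ℂ ![b, a, c] := by
  rw [Fintype.linearIndependent_iff]
  intro g hg
  rw [Fin.sum_univ_three] at hg
  simp only [Matrix.cons_val_zero, Matrix.cons_val_one, Matrix.cons_val] at hg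
  have h1 := dep3 h (α := g 1) (β := g 0) (γ := g 2) (by
    rw [add_comm (g 1 • a)]
    exact hg)
  intro i
  fin_cases i
  · exact h1.2.1
  · exact h1.1
  · exact h1.2.2

/-- two elements with the same direction are equal -/
lemma same {A : Finset V3} (hA : Arr A) (M : V3 ≃ₗ[ℂ] V3) {a b v : V3} {ca cb : ℂ} (ha : a ∈ A)
    (hb : b ∈ A) (hcb : cb ≠ 0) (Ma : M a = ca • v) (Mb : M b = cb • v) : a = b := by
  by_contra hne
  have h0 : cb • a + (-ca) • b = 0 := by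
    apply M.injective
    rw [map_zero, map_add, map_smul, map_smul, Ma, Mb]
    funext i
    simp only [Pi.add_apply, Pi.smul_apply, smul_eq_mul, Pi.zero_apply]
    ring
  exact hcb (dep2 (hA.li a ha b hb hne) h0).1

/-- a double point -/
def Gd (A : Finset V3) (a b : V3) : Prop :=
  (a ∈ A ∧ b ∈ A) ∧ a ≠ b ∧ ∀ d ∈ A, d ≠ a → d ≠ b → LinearIndependent ℂ ![a, b, d]

lemma Gd.symm {A : Finset V3} {a b : V3} (h : Gd A a b) : Gd A b a :=
  ⟨⟨h.1.2, h.1.1⟩, h.2.1.symm, fun d hd h1 h2 => swap3 (h.2.2 d hd h2 h1)⟩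

/-- realized directions -/
def Rz (A : Finset V3) (M : V3 ≃ₗ[ℂ] V3) (v : V3) : Prop := ∃ d ∈ A, ∃ c : ℂ, c ≠ 0 ∧ M d = c • v

/-- the basic contradiction -/
lemma key {A : Finset V3} (hA : Arr A) (M : V3 ≃ₗ[ℂ] V3) {a b va vb : V3} {ca cb α β : ℂ}
    (h : Gd A a b) (hca : ca ≠ 0) (hcb : cb ≠ 0) (Ma : M a = ca • va) (Mb : M b = cb • vb)
    (hα : α ≠ 0) (hβ : β ≠ 0) (hd : Rz A M (α • va + β • vb)) : False := by
  obtain ⟨⟨ha, hb⟩, hab, hall⟩ := h
  obtain ⟨d, hdA, c, hc, Md⟩ := hd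
  have e : d = (c * α * ca⁻¹) • a + (c * β * cb⁻¹) • b := by
    apply M.injective
    rw [map_add, map_smul, map_smul, Ma, Mb, Md]
    funext i
    simp only [Pi.add_apply, Pi.smul_apply, smul_eq_mul]
    field_simp
  have h1 : c * β * cb⁻¹ ≠ 0 := mul_ne_zero (mul_ne_zero hc hβ) (inv_ne_zero hcb)
  have h2 : c * α * ca⁻¹ ≠ 0 := mul_ne_zero (mul_ne_zero hc hα) (inv_ne_zero hca)
  have hli := hA.li a ha b hb hab
  by_cases hda : d = a
  · rw [hda] at e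
    have h3 : (c * α * ca⁻¹ - 1) • a + (c * β * cb⁻¹) • b = 0 := by
      rw [sub_smul, one_smul, sub_add_eq_add_sub, ← e, sub_self]
    exact h1 (dep2 hli h3).2
  by_cases hdb : d = b
  · rw [hdb] at e
    have h3 : (c * α * ca⁻¹) • a + (c * β * cb⁻¹ - 1) • b = 0 := by
      rw [sub_smul, one_smul, ← add_sub_assoc, ← e, sub_self]
    exact h2 (dep2 hli h3).1
  · have h3 : (c * α * ca⁻¹) • a + (c * β * cb⁻¹) • b + (-1 : ℂ) • d = 0 := by
      rw [← e, neg_smul, one_smul, add_neg_cancel]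
    have h4 := (dep3 (hall d hdA hda hdb) h3).2.2
    exact one_ne_zero (neg_eq_zero.mp h4)

lemma exists_omega {r : ℕ} (hr : 3 ≤ r) : ∃ w : ℂ, w ^ r = 1 ∧ w ≠ 1 := by
  have h := Complex.isPrimitiveRoot_exp r (by omega)
  exact ⟨_, h.pow_eq_one, h.ne_one (by omega)⟩

lemma ne0 {r : ℕ} (hr : 3 ≤ r) {z : ℂ} (h : z ^ r = 1) : z ≠ 0 := by
  rintro rfl
  rw [zero_pow (by omega)] at h
  exact zero_ne_one h

section Tab

variable {A : Finset V3} {M : V3 ≃ₗ[ℂ] V3} {a b : V3} {ca cb z w : ℂ} {r : ℕ}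

lemma c12 (hA : Arr A) (RW : ∀ z : ℂ, z ^ r = 1 → Rz A M ![1, -z, 0]) (h : Gd A a b)
    (hca : ca ≠ 0) (hcb : cb ≠ 0) (Ma : M a = ca • ![1, 0, 0]) (Mb : M b = cb • ![0, 1, 0]) :
    False := by
  refine key hA M (α := 1) (β := -1) h hca hcb Ma Mb one_ne_zero (neg_ne_zero.mpr one_ne_zero) ?_
  have e : (1 : ℂ) • (![1, 0, 0] : V3) + (-1 : ℂ) • ![0, 1, 0] = ![1, -1, 0] := by
    funext i; fin_cases i <;> simp
  rw [e]
  exact RW 1 (one_pow r)

lemma c1W (hr : 3 ≤ r) (hA : Arr A) (R2 : Rz A M ![0, 1, 0]) (h : Gd A a b)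
    (hca : ca ≠ 0) (hcb : cb ≠ 0) (hz : z ^ r = 1) (Ma : M a = ca • ![1, 0, 0])
    (Mb : M b = cb • ![1, -z, 0]) : False := by
  have hz0 := ne0 hr hz
  refine key hA M (α := z⁻¹) (β := -z⁻¹) h hca hcb Ma Mb (inv_ne_zero hz0)
    (neg_ne_zero.mpr (inv_ne_zero hz0)) ?_
  have e : z⁻¹ • (![1, 0, 0] : V3) + (-z⁻¹) • ![1, -z, 0] = ![0, 1, 0] := by
    funext i; fin_cases i <;> simp [hz0]
  rw [e]
  exact R2

lemma c2W (hr : 3 ≤ r) (hA : Arr A) (R1 : Rz A M ![1, 0, 0]) (h : Gd A a b)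
    (hca : ca ≠ 0) (hcb : cb ≠ 0) (hz : z ^ r = 1) (Ma : M a = ca • ![0, 1, 0])
    (Mb : M b = cb • ![1, -z, 0]) : False := by
  have hz0 := ne0 hr hz
  refine key hA M (α := z) (β := 1) h hca hcb Ma Mb hz0 one_ne_zero ?_
  have e : z • (![0, 1, 0] : V3) + (1 : ℂ) • ![1, -z, 0] = ![1, 0, 0] := by
    funext i; fin_cases i <;> simp
  rw [e]
  exact R1

lemma cWW (hr : 3 ≤ r) (hA : Arr A) (R1 : Rz A M ![1, 0, 0]) (h : Gd A a b)
    (hca : ca ≠ 0) (hcb : cb ≠ 0) (hz : z ^ r = 1) (hw : w ^ r = 1)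
    (Ma : M a = ca • ![1, -z, 0]) (Mb : M b = cb • ![1, -w, 0]) : False := by
  have hz0 := ne0 hr hz
  have hw0 := ne0 hr hw
  have hne : w - z ≠ 0 := by
    intro h0
    have : w = z := sub_eq_zero.mp h0
    rw [this] at Mb
    exact h.2.1 (same hA M h.1.1 h.1.2 hcb Ma Mb)
  refine key hA M (α := w / (w - z)) (β := -z / (w - z)) h hca hcb Ma Mb (div_ne_zero hw0 hne)
    (div_ne_zero (neg_ne_zero.mpr hz0) hne) ?_
  have e : (w / (w - z)) • (![1, -z, 0] : V3) + (-z / (w - z)) • ![1, -w, 0] = ![1, 0, 0] := by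
    funext i
    fin_cases i
    · simp
      field_simp
      ring
    · simp
      field_simp
      ring
    · simp
  rw [e]
  exact R1

lemma cL1L1 (hA : Arr A) (R1 : Rz A M ![1, 0, 0]) (h : Gd A a b)
    (hca : ca ≠ 0) (hcb : cb ≠ 0)
    (Ma : M a = ca • ![-z, 0, 1]) (Mb : M b = cb • ![-w, 0, 1]) : False := by
  have hne : w - z ≠ 0 := by
    intro h0
    have : w = z := sub_eq_zero.mp h0
    rw [this] at Mb
    exact h.2.1 (same hA M h.1.1 h.1.2 hcb Ma Mb)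
  refine key hA M (α := (w - z)⁻¹) (β := -(w - z)⁻¹) h hca hcb Ma Mb (inv_ne_zero hne)
    (neg_ne_zero.mpr (inv_ne_zero hne)) ?_
  have e : ((w - z)⁻¹) • (![-z, 0, 1] : V3) + (-(w - z)⁻¹) • ![-w, 0, 1] = ![1, 0, 0] := by
    funext i
    fin_cases i
    · simp
      field_simp
      ring
    · simp
    · simp
  rw [e]
  exact R1

lemma cL2L2 (hA : Arr A) (R2 : Rz A M ![0, 1, 0]) (h : Gd A a b)
    (hca : ca ≠ 0) (hcb : cb ≠ 0)
    (Ma : M a = ca • ![0, -z, 1]) (Mb : M b = cb • ![0, -w, 1]) : False := by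
  have hne : w - z ≠ 0 := by
    intro h0
    have : w = z := sub_eq_zero.mp h0
    rw [this] at Mb
    exact h.2.1 (same hA M h.1.1 h.1.2 hcb Ma Mb)
  refine key hA M (α := (w - z)⁻¹) (β := -(w - z)⁻¹) h hca hcb Ma Mb (inv_ne_zero hne)
    (neg_ne_zero.mpr (inv_ne_zero hne)) ?_
  have e : ((w - z)⁻¹) • (![0, -z, 1] : V3) + (-(w - z)⁻¹) • ![0, -w, 1] = ![0, 1, 0] := by
    funext i
    fin_cases i
    · simp
    · simp
      field_simp
      ring
    · simp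
  rw [e]
  exact R2

lemma cL1L2 (hr : 3 ≤ r) (hA : Arr A) (RW : ∀ z : ℂ, z ^ r = 1 → Rz A M ![1, -z, 0]) (h : Gd A a b)
    (hca : ca ≠ 0) (hcb : cb ≠ 0) (hz : z ^ r = 1) (hw : w ^ r = 1)
    (Ma : M a = ca • ![-z, 0, 1]) (Mb : M b = cb • ![0, -w, 1]) : False := by
  have hz0 := ne0 hr hz
  refine key hA M (α := -z⁻¹) (β := z⁻¹) h hca hcb Ma Mb (neg_ne_zero.mpr (inv_ne_zero hz0))
    (inv_ne_zero hz0) ?_
  have e : (-z⁻¹) • (![-z, 0, 1] : V3) + z⁻¹ • ![0, -w, 1] = ![1, -(w / z), 0] := by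
    funext i
    fin_cases i
    · simp [hz0]
    · simp
      field_simp
    · simp
  rw [e]
  exact RW _ (by rw [div_pow, hz, hw, div_one])

lemma cL11 (hr : 3 ≤ r) (hA : Arr A) (RL : ∀ z : ℂ, z ^ r = 1 → Rz A M ![-z, 0, 1]) (h : Gd A a b)
    (hca : ca ≠ 0) (hcb : cb ≠ 0) (hz : z ^ r = 1)
    (Ma : M a = ca • ![-z, 0, 1]) (Mb : M b = cb • ![1, 0, 0]) : False := by
  have hz0 := ne0 hr hz
  obtain ⟨u, hu, hu1⟩ := exists_omega hr
  have hne : z - u * z ≠ 0 := by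
    have : z - u * z = -((u - 1) * z) := by ring
    rw [this]
    exact neg_ne_zero.mpr (mul_ne_zero (sub_ne_zero.mpr hu1) hz0)
  refine key hA M (α := 1) (β := z - u * z) h hca hcb Ma Mb one_ne_zero hne ?_
  have e : (1 : ℂ) • (![-z, 0, 1] : V3) + (z - u * z) • ![1, 0, 0] = ![-(u * z), 0, 1] := by
    funext i
    fin_cases i
    · simp
      ring
    · simp
    · simp
  rw [e]
  exact RL _ (by rw [mul_pow, hz, hu, one_mul])

lemma cL22 (hr : 3 ≤ r) (hA : Arr A) (RL : ∀ z : ℂ, z ^ r = 1 → Rz A M ![0, -z, 1]) (h : Gd A a b)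
    (hca : ca ≠ 0) (hcb : cb ≠ 0) (hz : z ^ r = 1)
    (Ma : M a = ca • ![0, -z, 1]) (Mb : M b = cb • ![0, 1, 0]) : False := by
  have hz0 := ne0 hr hz
  obtain ⟨u, hu, hu1⟩ := exists_omega hr
  have hne : z - u * z ≠ 0 := by
    have : z - u * z = -((u - 1) * z) := by ring
    rw [this]
    exact neg_ne_zero.mpr (mul_ne_zero (sub_ne_zero.mpr hu1) hz0)
  refine key hA M (α := 1) (β := z - u * z) h hca hcb Ma Mb one_ne_zero hne ?_
  have e : (1 : ℂ) • (![0, -z, 1] : V3) + (z - u * z) • ![0, 1, 0] = ![0, -(u * z), 1] := by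
    funext i
    fin_cases i
    · simp
    · simp
      ring
    · simp
  rw [e]
  exact RL _ (by rw [mul_pow, hz, hu, one_mul])

lemma cL1W (hr : 3 ≤ r) (hA : Arr A) (RL : ∀ z : ℂ, z ^ r = 1 → Rz A M ![0, -z, 1]) (h : Gd A a b)
    (hca : ca ≠ 0) (hcb : cb ≠ 0) (hz : z ^ r = 1) (hw : w ^ r = 1)
    (Ma : M a = ca • ![-z, 0, 1]) (Mb : M b = cb • ![1, -w, 0]) : False := by
  have hz0 := ne0 hr hz
  refine key hA M (α := 1) (β := z) h hca hcb Ma Mb one_ne_zero hz0 ?_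
  have e : (1 : ℂ) • (![-z, 0, 1] : V3) + z • ![1, -w, 0] = ![0, -(z * w), 1] := by
    funext i; fin_cases i <;> simp
  rw [e]
  exact RL _ (by rw [mul_pow, hz, hw, one_mul])

lemma cL2W (hr : 3 ≤ r) (hA : Arr A) (RL : ∀ z : ℂ, z ^ r = 1 → Rz A M ![-z, 0, 1]) (h : Gd A a b)
    (hca : ca ≠ 0) (hcb : cb ≠ 0) (hz : z ^ r = 1) (hw : w ^ r = 1)
    (Ma : M a = ca • ![0, -z, 1]) (Mb : M b = cb • ![1, -w, 0]) : False := by
  have hz0 := ne0 hr hz
  have hw0 := ne0 hr hw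
  refine key hA M (α := 1) (β := -(z / w)) h hca hcb Ma Mb one_ne_zero
    (neg_ne_zero.mpr (div_ne_zero hz0 hw0)) ?_
  have e : (1 : ℂ) • (![0, -z, 1] : V3) + (-(z / w)) • ![1, -w, 0] = ![-(z / w), 0, 1] := by
    funext i
    fin_cases i
    · simp
    · simp
      field_simp
      ring
    · simp
  rw [e]
  exact RL _ (by rw [div_pow, hz, hw, div_one])

end Tab

end DBGM

open DBGM in
/-- DBG -/
theorem specDBG (hOCG : SpecOCG) (_hMDG : SpecMDG) : SpecDBG := by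
  intro A r M p hA hr hcard hF hp
  obtain ⟨R1, R2, R3⟩ := hOCG A r M hA (by omega) hcard hF
  have RW : ∀ z : ℂ, z ^ r = 1 → Rz A M ![1, -z, 0] := fun z hz => (R3 z hz).1
  have RL1 : ∀ z : ℂ, z ^ r = 1 → Rz A M ![-z, 0, 1] := fun z hz => (R3 z hz).2.1
  have RL2 : ∀ z : ℂ, z ^ r = 1 → Rz A M ![0, -z, 1] := fun z hz => (R3 z hz).2.2
  choose! z hz c hc hM using hF
  set X1 := A.filter fun a => M a = c a • ![1, 0, 0] with hX1
  set X2 := A.filter fun a => M a = c a • ![0, 1, 0] with hX2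
  set W := A.filter fun a => M a = c a • ![1, -z a, 0] with hW
  set L1 := A.filter fun a => M a = c a • ![-z a, 0, 1] with hL1
  set L2 := A.filter fun a => M a = c a • ![0, -z a, 1] with hL2
  have m1 : ∀ a, a ∈ X1 ↔ a ∈ A ∧ M a = c a • ![1, 0, 0] := fun a => Finset.mem_filter
  have m2 : ∀ a, a ∈ X2 ↔ a ∈ A ∧ M a = c a • ![0, 1, 0] := fun a => Finset.mem_filter
  have mW : ∀ a, a ∈ W ↔ a ∈ A ∧ M a = c a • ![1, -z a, 0] := fun a => Finset.mem_filter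
  have mL1 : ∀ a, a ∈ L1 ↔ a ∈ A ∧ M a = c a • ![-z a, 0, 1] := fun a => Finset.mem_filter
  have mL2 : ∀ a, a ∈ L2 ↔ a ∈ A ∧ M a = c a • ![0, -z a, 1] := fun a => Finset.mem_filter
  have hor : ∀ a ∈ A, a ∈ X1 ∨ a ∈ X2 ∨ a ∈ W ∨ a ∈ L1 ∨ a ∈ L2 := by
    intro a ha
    rcases hM a ha with h | h | h | h | h
    · exact Or.inl ((m1 a).mpr ⟨ha, h⟩)
    · exact Or.inr (Or.inl ((m2 a).mpr ⟨ha, h⟩))
    · exact Or.inr (Or.inr (Or.inl ((mW a).mpr ⟨ha, h⟩)))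
    · exact Or.inr (Or.inr (Or.inr (Or.inl ((mL1 a).mpr ⟨ha, h⟩))))
    · exact Or.inr (Or.inr (Or.inr (Or.inr ((mL2 a).mpr ⟨ha, h⟩))))
  have one1 : ∀ a ∈ X1, ∀ b ∈ X1, a = b := fun a ha b hb =>
    same hA M ((m1 a).mp ha).1 ((m1 b).mp hb).1 (hc b ((m1 b).mp hb).1) ((m1 a).mp ha).2
      ((m1 b).mp hb).2
  have one2 : ∀ a ∈ X2, ∀ b ∈ X2, a = b := fun a ha b hb =>
    same hA M ((m2 a).mp ha).1 ((m2 b).mp hb).1 (hc b ((m2 b).mp hb).1) ((m2 a).mp ha).2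
      ((m2 b).mp hb).2
  -- the elements with nonzero third coordinate
  set L := Aq A p with hL
  have iL : ∀ a ∈ A, a ∈ L ↔ (a ∈ L1 ∨ a ∈ L2) := by
    intro a ha
    have hca := hc a ha
    have e0 : a ∈ L ↔ M a 2 ≠ 0 := by
      rw [hL]
      unfold Aq
      rw [Finset.mem_filter, hp a]
      exact ⟨fun h => h.2, fun h => ⟨ha, h⟩⟩
    rw [e0]
    constructor
    · intro h
      rcases hor a ha with h1 | h1 | h1 | h1 | h1
      · rw [((m1 a).mp h1).2] at h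
        simp at h
      · rw [((m2 a).mp h1).2] at h
        simp at h
      · rw [((mW a).mp h1).2] at h
        simp at h
      · exact Or.inl h1
      · exact Or.inr h1
    · intro h
      rcases h with h | h
      · rw [((mL1 a).mp h).2]
        simpa using hca
      · rw [((mL2 a).mp h).2]
        simpa using hca
  have hnL : ∀ a ∈ A, a ∉ L → a ∈ X1 ∨ a ∈ X2 ∨ a ∈ W := by
    intro a ha hn
    rcases hor a ha with h1 | h1 | h1 | h1 | h1
    · exact Or.inl h1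
    · exact Or.inr (Or.inl h1)
    · exact Or.inr (Or.inr h1)
    · exact absurd ((iL a ha).mpr (Or.inl h1)) hn
    · exact absurd ((iL a ha).mpr (Or.inr h1)) hn
  -- two elements of `L`
  have hLL : ∀ a b, Gd A a b → a ∈ L → b ∈ L → False := by
    intro a b h ha hb
    have ha0 := hc a h.1.1
    have hb0 := hc b h.1.2
    have hza := hz a h.1.1
    have hzb := hz b h.1.2
    rcases (iL a h.1.1).mp ha with ha | ha <;> rcases (iL b h.1.2).mp hb with hb | hb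
    · exact cL1L1 hA R1 h ha0 hb0 ((mL1 a).mp ha).2 ((mL1 b).mp hb).2
    · exact cL1L2 hr hA RW h ha0 hb0 hza hzb ((mL1 a).mp ha).2 ((mL2 b).mp hb).2
    · exact cL1L2 hr hA RW h.symm hb0 ha0 hzb hza ((mL1 b).mp hb).2 ((mL2 a).mp ha).2
    · exact cL2L2 hA R2 h ha0 hb0 ((mL2 a).mp ha).2 ((mL2 b).mp hb).2
  -- two elements off `L`
  have hWW : ∀ a b, Gd A a b → a ∉ L → b ∉ L → False := by
    intro a b h ha hb
    have ha0 := hc a h.1.1
    have hb0 := hc b h.1.2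
    have hza := hz a h.1.1
    have hzb := hz b h.1.2
    rcases hnL a h.1.1 ha with ha | ha | ha <;> rcases hnL b h.1.2 hb with hb | hb | hb
    · exact h.2.1 (one1 a ha b hb)
    · exact c12 hA RW h ha0 hb0 ((m1 a).mp ha).2 ((m2 b).mp hb).2
    · exact c1W hr hA R2 h ha0 hb0 hzb ((m1 a).mp ha).2 ((mW b).mp hb).2
    · exact c12 hA RW h.symm hb0 ha0 ((m1 b).mp hb).2 ((m2 a).mp ha).2
    · exact h.2.1 (one2 a ha b hb)
    · exact c2W hr hA R1 h ha0 hb0 hzb ((m2 a).mp ha).2 ((mW b).mp hb).2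
    · exact c1W hr hA R2 h.symm hb0 ha0 hza ((m1 b).mp hb).2 ((mW a).mp ha).2
    · exact c2W hr hA R1 h.symm hb0 ha0 hza ((m2 b).mp hb).2 ((mW a).mp ha).2
    · exact cWW hr hA R1 h ha0 hb0 hza hzb ((mW a).mp ha).2 ((mW b).mp hb).2
  -- one of each
  have hmix : ∀ a b, Gd A a b → a ∈ L → b ∉ L → (a ∈ L1 ∧ b ∈ X2) ∨ (a ∈ L2 ∧ b ∈ X1) := by
    intro a b h ha hb
    have ha0 := hc a h.1.1
    have hb0 := hc b h.1.2
    have hza := hz a h.1.1
    have hzb := hz b h.1.2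
    rcases (iL a h.1.1).mp ha with ha | ha <;> rcases hnL b h.1.2 hb with hb | hb | hb
    · exact (cL11 hr hA RL1 h ha0 hb0 hza ((mL1 a).mp ha).2 ((m1 b).mp hb).2).elim
    · exact Or.inl ⟨ha, hb⟩
    · exact (cL1W hr hA RL2 h ha0 hb0 hza hzb ((mL1 a).mp ha).2 ((mW b).mp hb).2).elim
    · exact Or.inr ⟨ha, hb⟩
    · exact (cL22 hr hA RL2 h ha0 hb0 hza ((mL2 a).mp ha).2 ((m2 b).mp hb).2).elim
    · exact (cL2W hr hA RL1 h ha0 hb0 hza hzb ((mL2 a).mp ha).2 ((mW b).mp hb).2).elim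
  have hdL : ∀ a, a ∈ L1 → a ∈ L2 → False := by
    intro a h1 h2
    have e1 := ((mL1 a).mp h1).2
    have e2 := ((mL2 a).mp h2).2
    rw [e1] at e2
    have e3 := congrFun e2 0
    simp at e3
    rcases e3 with e3 | e3
    · exact hc a ((mL1 a).mp h1).1 e3
    · exact ne0 hr (hz a ((mL1 a).mp h1).1) e3
  have huniq : ∀ a b b', Gd A a b → Gd A a b' → a ∈ L → b ∉ L → b' ∉ L → b = b' := by
    intro a b b' h h' ha hb hb'
    rcases hmix a b h ha hb with ⟨h1, h2⟩ | ⟨h1, h2⟩ <;>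
      rcases hmix a b' h' ha hb' with ⟨h3, h4⟩ | ⟨h3, h4⟩
    · exact one2 b h2 b' h4
    · exact (hdL a h1 h3).elim
    · exact (hdL a h3 h1).elim
    · exact one1 b h2 b' h4
  -- counting
  have mF : ∀ x : V3 × V3, x ∈ Fn A ↔ Gd A x.1 x.2 := by
    intro x
    unfold Fn Gd
    rw [Finset.mem_filter, Finset.mem_product]
  set F1 := (Fn A).filter fun x => x.1 ∈ L with hF1
  set F2 := (Fn A).filter fun x => ¬ x.1 ∈ L with hF2
  have s1 : F1.card + F2.card = (Fn A).card := Finset.card_filter_add_card_filter_not _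
  have c1 : F1.card ≤ L.card := by
    refine Finset.card_le_card_of_injOn (fun x => x.1) ?_ ?_
    · intro x hx
      exact (Finset.mem_filter.mp hx).2
    · rintro ⟨a, b⟩ hx ⟨a', b'⟩ hy hab
      obtain ⟨hx1, hx2⟩ := Finset.mem_filter.mp hx
      obtain ⟨hy1, hy2⟩ := Finset.mem_filter.mp hy
      simp only at hab hx2 hy2
      subst hab
      have g1 : Gd A a b := (mF _).mp hx1
      have g2 : Gd A a b' := (mF _).mp hy1
      rw [huniq a b b' g1 g2 hx2 (fun h => hLL a b g1 hx2 h) fun h => hLL a b' g2 hx2 h]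
  have c2 : F1.card = F2.card := by
    refine Finset.card_bij (fun x _ => x.swap) ?_ ?_ ?_
    · intro x hx
      obtain ⟨h1, h2⟩ := Finset.mem_filter.mp hx
      have g := (mF x).mp h1
      exact Finset.mem_filter.mpr ⟨(mF _).mpr g.symm, fun h => hLL _ _ g h2 h⟩
    · intro x _ y _ h
      exact Prod.swap_injective h
    · intro x hx
      obtain ⟨h1, h2⟩ := Finset.mem_filter.mp hx
      have g := (mF x).mp h1
      refine ⟨x.swap, Finset.mem_filter.mpr ⟨(mF _).mpr g.symm, ?_⟩, Prod.swap_swap x⟩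
      by_contra h
      exact hWW _ _ g h2 h
  omega

end Pool.Agent.Lib.MP_70c3c6_co.FG
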