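import Pool.Agent.Lib.MP_70c3c6_co.FG.Spec

set_option autoImplicit false
open Classical Polynomial

namespace Pool.Agent.Lib.MP_70c3c6_co.FG

open Pool.Agent.Lib.MP_70c3c6_co.EQ

theorem specHPO (hINT : SpecINT) : SpecHPO := by
  intro ι _ x y τ E hS i0 hx0 hy0
  have hxne : ∀ j, j ≠ i0 → x j ≠ 0 := by
    intro j hj h
    exact hj (hS.inj (h.trans hx0.symm))
  obtain ⟨B, hB, hB1⟩ := hINT ι (Finset.univ.erase i0) (fun j => - x j) y E
    (by
      intro j hj
      exact neg_ne_zero.mpr (hxne j (Finset.ne_of_mem_erase hj)))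
    (by
      intro i _ j _ hij h
      exact hij (hS.inj (neg_injective h)))
    (by
      intro j hj
      have hj' := Finset.ne_of_mem_erase hj
      have h1 := hS.chord i0 j hj'.symm
      have h2 : -y j / -x j = ms x y i0 j := by
        rw [neg_div_neg_eq, ms, hx0, hy0, sub_zero, sub_zero]
      show -y j / -x j ∈ E
      rw [h2]; exact h1)
    (by
      intro i _ j _ hij
      have h1 := hS.chord i j hij
      have h2 : -(y i - y j) / (-x i - -x j) = ms x y i j := by
        rw [ms]
        congr 1 <;> ring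
      show -(y i - y j) / (-x i - -x j) ∈ E
      rw [h2]; exact h1)
  refine ⟨X * B, ?_, ?_⟩
  · have h1 : MPss.TD (X : ℂ[X][X]) 1 := by
      have h := MPss.TD.lin (K := ℂ) (f := 0) (by simp)
      simpa using h
    have h2 := MPss.TD.mul h1 hB
    have h3 := hS.three
    have h4 : 1 + (E.card - 1) = E.card := by omega
    rw [h4] at h2
    exact h2
  · intro j
    by_cases hj : j = i0
    · subst hj
      rw [hx0, hy0]
      simp
    · have h1 : (X - C (-y j / -x j)) * B.eval (C (-x j) * X + C (y j)) = WW E :=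
        hB1 j (Finset.mem_erase.mpr ⟨hj, Finset.mem_univ j⟩)
      have h2 : (C (-x j) * X + C (y j) : ℂ[X]) = C (-x j) * (X - C (-y j / -x j)) := by
        rw [mul_sub, ← C_mul, mul_div_cancel₀ _ (neg_ne_zero.mpr (hxne j hj)), C_neg, C_neg]
        ring
      rw [eval_mul, eval_X, ← h1, ← mul_assoc, ← h2]

end Pool.Agent.Lib.MP_70c3c6_co.FG
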