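import Pool.Agent.Lib.MP_70c3c6_co.FG.Spec
import Pool.Agent.Lib.MP_70c3c6_co.Interp

/-!
MP_70c3c6_co, module INT: interpolation on the lines through the points of a system (copy of
MPss.interp with an arbitrary set of roots).
-/

set_option autoImplicit false
open Classical Polynomial

namespace Pool.Agent.Lib.MP_70c3c6_co.FG

namespace INTM

open MPss

variable {ι : Type} {S : Finset ι} {a b : ι → ℂ}

theorem interpE (X0 : Finset ℂ) (ha : ∀ i ∈ S, a i ≠ 0)
    (haa : ∀ i ∈ S, ∀ j ∈ S, i ≠ j → a i ≠ a j)
    (hcX' : ∀ i ∈ S, -b i / a i ∈ X0)
    (H : ∀ i ∈ S, ∀ j ∈ S, i ≠ j → -(b i - b j) / (a i - a j) ∈ X0)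
    (T : Finset ι) (hT : T ⊆ S) : ∃ B : ℂ[X][X], TD B (X0.card - 1) ∧
      ∀ j ∈ T, B.eval (lp (a j) (b j)) = gx X0 (-b j / a j) := by
  set D := X0.card - 1 with hD
  set f : ι → ℂ[X] := fun i => lp (a i) (b i) with hf
  set c : ι → ℂ := fun i => -b i / a i with hc
  have hcX : ∀ i ∈ S, c i ∈ X0 := fun i hi => hcX' i hi
  have hfg : ∀ i ∈ S, f i * gx X0 (c i) = C (a i) * ∏ y ∈ X0, (X - C y) := by
    intro i hi
    show lp (a i) (b i) * gx X0 (c i) = _
    rw [lp_eq (ha i hi), mul_assoc]
    congr 1
    exact gx_mul (hcX i hi)
  induction T using Finset.induction_on with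
  | empty => exact ⟨0, TD.zero _, fun j hj => absurd hj (Finset.notMem_empty j)⟩
  | insert i T hiT ih =>
    obtain ⟨B, hB, hBe⟩ := ih fun j hj => hT (Finset.mem_insert_of_mem hj)
    have hi : i ∈ S := hT (Finset.mem_insert_self i T)
    have hTS : ∀ j ∈ T, j ∈ S := fun j hj => hT (Finset.mem_insert_of_mem hj)
    have hij : ∀ j ∈ T, i ≠ j := fun j hj h => hiT (h ▸ hj)
    have haij : ∀ j ∈ T, a i - a j ≠ 0 := fun j hj =>
      sub_ne_zero.mpr (haa i hi j (hTS j hj) (hij j hj))
    -- the crossing points
    set e : ι → ℂ := fun j => -(b i - b j) / (a i - a j) with he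
    have heX : ∀ j ∈ T, e j ∈ X0 := by
      intro j hj
      exact H i hi j (hTS j hj) (hij j hj)
    have hfinj : ∀ j ∈ T, ∀ l ∈ T, f j = f l → j = l := by
      intro j hj l hl h
      by_contra hne
      refine haa j (hTS j hj) l (hTS l hl) hne ?_
      have := congrArg (fun p => coeff p 1) h
      simpa [hf, lp_coeff_one] using this
    have hdvd : ∏ j ∈ T, (f i - f j) ∣ gx X0 (c i) - B.eval (f i) := by
      rw [← Finset.prod_fiberwise_of_maps_to (g := e) (t := X0) heX fun j => f i - f j]
      refine Finset.prod_dvd_of_coprime ?_ ?_
      · intro x _ y _ hxy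
        refine IsCoprime.prod_left fun j hj => IsCoprime.prod_right fun l hl => ?_
        rw [Finset.mem_filter] at hj hl
        show IsCoprime (lp (a i) (b i) - lp (a j) (b j)) (lp (a i) (b i) - lp (a l) (b l))
        rw [lp_sub, lp_sub]
        refine lp_coprime (haij j hj.1) (haij l hl.1) ?_
        show e j ≠ e l
        rw [hj.2, hl.2]
        exact hxy
      · intro x hx
        -- the value at the crossing point
        set v : ℂ := (f i).eval x with hv
        set U := T.filter fun j => e j = x with hU
        have hUT : ∀ j ∈ U, j ∈ T := fun j hj => (Finset.mem_filter.mp hj).1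
        have hUe : ∀ j ∈ U, e j = x := fun j hj => (Finset.mem_filter.mp hj).2
        have hUv : ∀ j ∈ U, a j * x + b j = v := by
          intro j hj
          have h1 : x * (a i - a j) = -(b i - b j) := by
            rw [← hUe j hj]
            exact div_mul_cancel₀ _ (haij j (hUT j hj))
          rw [hv, hf]
          simp only [lp_eval]
          linear_combination -h1
        have hUinj : ∀ j ∈ U, ∀ l ∈ U, f j = f l → j = l := fun j hj l hl =>
          hfinj j (hUT j hj) l (hUT l hl)
        have hvi : a i * x + b i = v := by
          rw [hv, hf]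
          simp only [lp_eval]
        have hcx : ∀ j ∈ S, a j * x + b j = 0 → c j = x := by
          intro j hj h
          show -b j / a j = x
          rw [div_eq_iff (ha j hj)]
          linear_combination -h
        by_cases hv0 : v = 0
        · have hE := prod_dvd_eval f U hUinj (B - C (gx X0 x)) (fun j hj => by
            rw [eval_sub, eval_C, hBe j (hUT j hj), sub_eq_zero]
            have := hcx j (hTS j (hUT j hj)) ((hUv j hj).trans hv0)
            show gx X0 (c j) = gx X0 x
            rw [this]) (f i)
          rw [eval_sub, eval_C] at hE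
          have h2 : c i = x := hcx i hi (hvi.trans hv0)
          rw [h2, ← dvd_neg, neg_sub]
          exact hE
        · have hlin : ∀ j, a j * x + b j = v → f j - C v = C (a j) * (X - C x) := by
            intro j h
            show lp (a j) (b j) - C v = _
            rw [← h, MPss.lp, mul_sub, C_add, C_mul]
            ring
          have hG : (X - C x) * gx X0 x = ∏ y ∈ X0, (X - C y) := gx_mul hx
          have hE := prod_dvd_eval f U hUinj (X * B - C (gx X0 x) * (X - C (C v)))
            (fun j hj => by
              rw [eval_sub, eval_mul, eval_mul, eval_X, eval_C, eval_sub, eval_X, eval_C,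
                hBe j (hUT j hj), hlin j (hUv j hj)]
              have h3 := hfg j (hTS j (hUT j hj))
              show f j * gx X0 (c j) - gx X0 x * (C (a j) * (X - C x)) = 0
              rw [h3, ← hG]
              ring) (f i)
          have h4 : eval (f i) (X * B - C (gx X0 x) * (X - C (C v))) =
              -(f i * (gx X0 (c i) - B.eval (f i))) := by
            rw [eval_sub, eval_mul, eval_mul, eval_X, eval_C, eval_sub, eval_X, eval_C,
              hlin i hvi]
            linear_combination hfg i hi - C (a i) * hG
          rw [h4, dvd_neg] at hE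
          refine IsCoprime.dvd_of_dvd_mul_left ?_ hE
          refine IsCoprime.prod_left fun j hj => ?_
          show IsCoprime (lp (a i) (b i) - lp (a j) (b j)) (lp (a i) (b i))
          rw [lp_sub]
          refine lp_coprime (haij j (hUT j hj)) (ha i hi) ?_
          show e j ≠ c i
          rw [hUe j hj]
          intro h5
          apply hv0
          rw [← hvi, h5]
          show a i * (-b i / a i) + b i = 0
          field_simp [ha i hi]
          ring
    obtain ⟨l, hl⟩ := hdvd
    refine ⟨B + C l * ∏ j ∈ T, (X - C (f j)), ?_, ?_⟩
    · refine hB.add ?_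
      by_cases hl0 : l = 0
      · rw [hl0, C_0, zero_mul]
        exact TD.zero _
      · have h1 : (∏ j ∈ T, (f i - f j)).natDegree = T.card := by
          rw [natDegree_prod _ _ fun j hj => ?_]
          · rw [Finset.sum_congr rfl fun j hj => ?_]
            · rw [Finset.sum_const, smul_eq_mul, mul_one]
            · show (lp (a i) (b i) - lp (a j) (b j)).natDegree = 1
              rw [lp_sub]
              exact lp_natDegree (haij j hj)
          · intro h0
            have : (lp (a i) (b i) - lp (a j) (b j)).natDegree = 1 := by
              rw [lp_sub]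
              exact lp_natDegree (haij j hj)
            have h0' : lp (a i) (b i) - lp (a j) (b j) = 0 := h0
            rw [h0', natDegree_zero] at this
            exact absurd this (by norm_num)
        have h1' : ∏ j ∈ T, (f i - f j) ≠ 0 := by
          rw [Finset.prod_ne_zero_iff]
          intro j hj h0
          have : (lp (a i) (b i) - lp (a j) (b j)).natDegree = 1 := by
            rw [lp_sub]
            exact lp_natDegree (haij j hj)
          have h0' : lp (a i) (b i) - lp (a j) (b j) = 0 := h0
          rw [h0', natDegree_zero] at this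
          exact absurd this (by norm_num)
        have h2 : (gx X0 (c i) - B.eval (f i)).natDegree ≤ D := by
          refine (natDegree_sub_le _ _).trans (max_le ?_ ?_)
          · rw [gx_natDegree (hcX i hi)]
          · exact hB.eval_natDegree_le (lp_natDegree_le _ _)
        rw [hl, natDegree_mul h1' hl0, h1] at h2
        exact ((TD.ofC (l := l) le_rfl).mul (TD.prod f T fun j _ => lp_natDegree_le _ _)).mono
          (by omega)
    · intro j hj
      rw [eval_add, eval_mul, eval_C, eval_prod]
      simp only [eval_sub, eval_X, eval_C]
      rcases Finset.mem_insert.mp hj with rfl | hj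
      · show B.eval (f j) + l * ∏ x ∈ T, (f j - f x) = gx X0 (c j)
        linear_combination -hl
      · have h0 : ∏ x ∈ T, (lp (a j) (b j) - f x) = 0 :=
          Finset.prod_eq_zero hj (sub_self _)
        rw [h0, mul_zero, add_zero]
        exact hBe j hj

end INTM

theorem specINT : SpecINT := by
  intro ι S a b E ha haa hc H
  obtain ⟨B, hB, hBe⟩ := INTM.interpE E ha haa hc H S subset_rfl
  refine ⟨B, hB, fun j hj => ?_⟩
  have h1 := hBe j hj
  unfold MPss.lp at h1
  rw [h1]
  exact MPss.gx_mul (hc j hj)

end Pool.Agent.Lib.MP_70c3c6_co.FG
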