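import Pool.Agent.Lib.MP_70c3c6_co.FG.Spec

/-!
MP_70c3c6_co, FG, module KEY: the key relation at the slope of a chord.
-/

set_option autoImplicit false
open Classical Polynomial

namespace Pool.Agent.Lib.MP_70c3c6_co.FG

open Pool.Agent.Lib.MP_70c3c6_co.EQ

namespace KEYM

theorem ms_symm {ι : Type} (x y : ι → ℂ) (i j : ι) : ms x y i j = ms x y j i := by
  unfold ms
  rw [← neg_sub (y i) (y j), ← neg_sub (x i) (x j), neg_div_neg_eq]

theorem WW_monic (E : Finset ℂ) : (WW E).Monic :=
  monic_prod_of_monic _ _ fun e _ => monic_X_sub_C e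

theorem WW_natDegree (E : Finset ℂ) : (WW E).natDegree = E.card := by
  rw [WW, natDegree_prod_of_monic _ _ fun e _ => monic_X_sub_C e]
  simp

theorem WW_root (E : Finset ℂ) (e : ℂ) (he : e ∈ E) : (WW E).eval e = 0 := by
  rw [WW, eval_prod]
  exact Finset.prod_eq_zero he (by simp)

theorem alg (A B W1 W2 c c' m : ℂ) (h1 : A * c = A * W2 - m * W1) (h2 : B * c' = B * W2 - m * W1)
    (h3 : c + c' = W2) : W2 * (A * B) = m * W1 * (A + B) := by
  linear_combination A * B * h3 - B * h1 - A * h2

end KEYM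

open KEYM

theorem specKEY (hHPO : SpecHPO) (hTOP : SpecTOP) (hCRX : SpecCRX) (hCLF : SpecCLF) : SpecKEY := by
  intro ι _ x y τ E hS i j hij
  obtain ⟨x', hx'⟩ : ∃ x' : ι → ℂ, ∀ l, x' l = x l - x i := ⟨fun l => x l - x i, fun _ => rfl⟩
  obtain ⟨y', hy'⟩ : ∃ y' : ι → ℂ, ∀ l, y' l = y l - y i := ⟨fun l => y l - y i, fun _ => rfl⟩
  have hms : ∀ a b, ms x' y' a b = ms x y a b := by
    intro a b
    simp only [ms, hx', hy', sub_sub_sub_cancel_right]
  have hS' : SysG x' y' τ E :=
    { inj := by
        intro a b h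
        rw [hx', hx'] at h
        exact hS.inj (sub_left_injective h)
      lt := hS.lt
      three := hS.three
      tau := hS.tau
      chord := fun a b h => by rw [hms]; exact hS.chord a b h
      tang := fun a b h => by rw [hms]; exact hS.tang a b h
      cover := fun a e he hne => by
        obtain ⟨b, hb, hb'⟩ := hS.cover a e he hne
        exact ⟨b, hb, by rw [hms]; exact hb'⟩ }
  obtain ⟨H, hTD, hH⟩ := hHPO ι x' y' τ E hS' i (by rw [hx', sub_self]) (by rw [hy', sub_self])
  have htop := hTOP ι x' y' E.card (WW E) H hS'.inj hS'.lt (by have := hS.three; omega)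
    (WW_monic E) (WW_natDegree E) hTD hH
  have hneg : ∀ a b, a ≠ b → - x' a ≠ - x' b := fun a b h h' => h (hS'.inj (neg_injective h'))
  have hcross : ∀ a b, a ≠ b → - x' a * ms x y a b + y' a = - x' b * ms x y a b + y' b := by
    intro a b hab
    have hne : x b - x a ≠ 0 := sub_ne_zero.mpr fun h => hab (hS.inj h).symm
    have hm : ms x y a b * (x b - x a) = y b - y a := div_mul_cancel₀ _ hne
    rw [hx', hx', hy', hy']
    linear_combination hm
  have hval : ∀ l, ∀ e ∈ E, e ≠ τ l →
      ((derivative H).eval (C (- x' l) * X + C (y' l))).eval e = (derivative (WW E)).eval e := by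
    intro l e he hne
    obtain ⟨b, hb, hb'⟩ := hS.cover l e he hne
    exact (hCRX (WW E) H (- x' l) (y' l) (- x' b) (y' b) e (hneg l b hb.symm)
      (by rw [← hb']; exact hcross l b hb.symm) (WW_root E e he) (hH l) (hH b)).1
  have hcl : ∀ l, ∀ e ∈ E, e ≠ τ l →
      (e - τ l) * (derivative ((derivative H).eval (C (- x' l) * X + C (y' l)))).eval e =
        (e - τ l) * (derivative (derivative (WW E))).eval e -
          ((E.card : ℂ) - 1) * (derivative (WW E)).eval e :=
    fun l => hCLF E (τ l) _ (hS.tau l) (htop l).1 (htop l).2 (hval l)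
  have he : ms x y i j ∈ E := hS.chord i j hij
  have h1 := hcl i _ he (hS.tang i j hij)
  have h2 := hcl j _ he (by rw [ms_symm]; exact hS.tang j i hij.symm)
  have h3 := (hCRX (WW E) H (- x' i) (y' i) (- x' j) (y' j) _ (hneg i j hij) (hcross i j hij)
    (WW_root E _ he) (hH i) (hH j)).2
  exact alg _ _ _ _ _ _ _ h1 h2 h3

end Pool.Agent.Lib.MP_70c3c6_co.FG
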