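import Pool.Agent.Lib.MP_70c3c6_co.FG.Spec

/-!
# MP_70c3c6_co, FG, module LAM
-/

set_option autoImplicit false
open Classical Polynomial

namespace Pool.Agent.Lib.MP_70c3c6_co.FG

open Pool.Agent.Lib.MP_70c3c6_co.EQ

namespace LAMM

theorem ms_comm {ι : Type} (x y : ι → ℂ) (i j : ι) : ms x y i j = ms x y j i := by
  unfold ms
  rw [← neg_sub (y j) (y i), ← neg_sub (x j) (x i), neg_div_neg_eq]

theorem der_ne (E : Finset ℂ) (e : ℂ) (he : e ∈ E) : (derivative (WW E)).eval e ≠ 0 := by
  have h1 : WW E = (X - C e) * ∏ e' ∈ E.erase e, (X - C e') :=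
    (Finset.mul_prod_erase E (fun e' => X - C e') he).symm
  rw [h1, derivative_mul]
  simp only [derivative_X_sub_C, one_mul, eval_add, eval_mul, eval_sub, eval_X, eval_C, sub_self,
    zero_mul, add_zero, eval_prod]
  refine Finset.prod_ne_zero_iff.mpr fun e' he' => ?_
  rw [sub_ne_zero]
  exact (Finset.ne_of_mem_erase he').symm

end LAMM

theorem specLAM (hK : SpecKEY) : SpecLAM := by
  intro ι _ x y τ E hS
  refine ⟨fun e => (derivative (derivative (WW E))).eval e /
    (((E.card : ℂ) - 1) * (derivative (WW E)).eval e), ?_⟩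
  intro i j hij
  have hk := hK ι x y τ E hS i j hij
  have he := hS.chord i j hij
  have hW := LAMM.der_ne E _ he
  have hA : ms x y i j - τ i ≠ 0 := sub_ne_zero.mpr (hS.tang i j hij)
  have hB : ms x y i j - τ j ≠ 0 := by
    rw [LAMM.ms_comm]
    exact sub_ne_zero.mpr (hS.tang j i hij.symm)
  have hm : ((E.card : ℂ) - 1) ≠ 0 := by
    have h3 := hS.three
    rw [sub_ne_zero]
    intro h
    have h4 : E.card = 1 := by exact_mod_cast h
    omega
  show (ms x y i j - τ i)⁻¹ + (ms x y i j - τ j)⁻¹ =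
    (derivative (derivative (WW E))).eval (ms x y i j) /
      (((E.card : ℂ) - 1) * (derivative (WW E)).eval (ms x y i j))
  rw [eq_div_iff (mul_ne_zero hm hW)]
  field_simp
  linear_combination -hk

end Pool.Agent.Lib.MP_70c3c6_co.FG
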