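import Pool.Agent.Lib.MP_70c3c6_co.FG.Spec
import Pool.Agent.Lib.MP_70c3c6_co.EQ.CNT

/-!
# FG, module LOW: in a modular arrangement the lines off the modular point number at most
half the double points
-/

set_option autoImplicit false
open Classical Polynomial

namespace Pool.Agent.Lib.MP_70c3c6_co.FG

open Pool.Agent.Lib.MP_70c3c6_co.EQ

open Pool.Agent.Lib.MP_70c3c6_co.EQ.CNTM MPss in
theorem specLOW : SpecLOW := by
  intro A p hA hM
  obtain ⟨c1, hc1, c2, hc2, hc12, hp1, hp2⟩ := hM.two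
  have hex : ∀ a ∈ Aq A p, ∃ c, c ∈ good A p a := by
    intro a ha
    obtain ⟨haA, hap⟩ := CNTM.mem_Aq.1 ha
    obtain ⟨c, hc, hcp, h⟩ := exists_double hA.nz hA.li hc1 hc2 hc12 hp1 hp2 hM.m haA hap
    exact ⟨c, mem_good.2 ⟨⟨hc, hcp⟩, h⟩⟩
  have hg1 : ∀ a ∈ Aq A p, 1 ≤ (good A p a).card := fun a ha => Finset.card_pos.2 (hex a ha)
  have h1 := two_sum_le (p := p) hA ∅ (Finset.empty_subset _)
    (fun x hx => absurd hx (Finset.notMem_empty x))
  have h2 : (Aq A p).card ≤ ∑ a ∈ Aq A p, (good A p a).card := by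
    have h3 := Finset.card_nsmul_le_sum (Aq A p) (fun a => (good A p a).card) 1 hg1
    simpa using h3
  rw [Finset.card_empty] at h1
  omega

end Pool.Agent.Lib.MP_70c3c6_co.FG
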