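import Pool.Agent.Lib.MP_70c3c6_co.FG.Spec

/-!
# MDG (helper37): the point `p` is modular
-/

set_option autoImplicit false
open Classical

namespace Pool.Agent.Lib.MP_70c3c6_co.FG

open Pool.Agent.Lib.MP_70c3c6_co.EQ

namespace MDGM

lemma dep3 {a b c : V3} (h : LinearIndependent ℂ ![a, b, c]) {α β γ : ℂ}
    (h0 : α • a + β • b + γ • c = 0) : α = 0 ∧ β = 0 ∧ γ = 0 := by
  have h1 := Fintype.linearIndependent_iff.mp h ![α, β, γ] (by
    rw [Fin.sum_univ_three]
    exact h0)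
  exact ⟨h1 0, h1 1, h1 2⟩

lemma rel (M : V3 ≃ₗ[ℂ] V3) {a b c va vb vc : V3} {ca cb cc γ : ℂ} (ha : ca ≠ 0) (hb : cb ≠ 0)
    (hc : cc ≠ 0) (Ma : M a = ca • va) (Mb : M b = cb • vb) (Mc : M c = cc • vc)
    (h : va - vb = γ • vc) : ¬ LinearIndependent ℂ ![a, b, c] := by
  intro hli
  have h0 : ca⁻¹ • a + (-cb⁻¹) • b + (-(γ * cc⁻¹)) • c = 0 := by
    apply M.injective
    rw [map_zero, map_add, map_add, map_smul, map_smul, map_smul, Ma, Mb, Mc, smul_smul, smul_smul,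
      smul_smul, inv_mul_cancel₀ ha, neg_mul, inv_mul_cancel₀ hb, neg_mul, mul_assoc,
      inv_mul_cancel₀ hc, mul_one, one_smul, neg_smul, one_smul, neg_smul, ← h]
    abel
  exact inv_ne_zero ha (dep3 hli h0).1

lemma ne0 {z : ℂ} {r : ℕ} (hr : 1 ≤ r) (h : z ^ r = 1) : z ≠ 0 := by
  rintro rfl
  rw [zero_pow (by omega)] at h
  exact zero_ne_one h

/-- a line off `p` -/
lemma off {A : Finset V3} {r : ℕ} {M : V3 ≃ₗ[ℂ] V3} (hF : InF A r M) {a : V3} (ha : a ∈ A)
    (h2 : M a 2 ≠ 0) : ∃ ζ : ℂ, ζ ^ r = 1 ∧ ∃ c : ℂ, c ≠ 0 ∧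
      (M a = c • ![-ζ, 0, 1] ∨ M a = c • ![0, -ζ, 1]) := by
  obtain ⟨z, hz, c, hc, h⟩ := hF a ha
  rcases h with h | h | h | h | h
  · exact absurd (by rw [h]; simp) h2
  · exact absurd (by rw [h]; simp) h2
  · exact absurd (by rw [h]; simp) h2
  · exact ⟨z, hz, c, hc, Or.inl h⟩
  · exact ⟨z, hz, c, hc, Or.inr h⟩

end MDGM

open MDGM in
theorem specMDG (hOCG : SpecOCG) : SpecMDG := by
  intro A r M p hA hr hcard hF hp hdp
  obtain ⟨⟨a1, ha1, c1, hc1, M1⟩, ⟨a2, ha2, c2, hc2, M2⟩, hz⟩ := hOCG A r M hA hr hcard hF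
  refine ⟨hp, ⟨a1, ha1, a2, ha2, ?_, ?_, ?_⟩, ?_⟩
  · rintro rfl
    rw [M1] at M2
    have := congrFun M2 0
    simp at this
    exact hc1 this
  · rw [hdp, M1]
    simp
  · rw [hdp, M2]
    simp
  · intro a ha b hb _ hnot
    by_cases h1 : dotProduct a p = 0
    · refine ⟨a, ha, h1, fun hli => ?_⟩
      have := dep3 hli (α := 1) (β := 0) (γ := -1) (by
        rw [one_smul, zero_smul, neg_smul, one_smul, add_zero, add_neg_cancel])
      exact one_ne_zero this.1
    by_cases h2 : dotProduct b p = 0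
    · refine ⟨b, hb, h2, fun hli => ?_⟩
      have := dep3 hli (α := 0) (β := 1) (γ := -1) (by
        rw [one_smul, zero_smul, neg_smul, one_smul, zero_add, add_neg_cancel])
      exact one_ne_zero this.2.1
    rw [hdp] at h1 h2
    obtain ⟨z, hzr, ca, hca, hMa⟩ := off hF ha h1
    obtain ⟨w, hwr, cb, hcb, hMb⟩ := off hF hb h2
    have hz0 := ne0 hr hzr
    have hw0 := ne0 hr hwr
    rcases hMa with hMa | hMa <;> rcases hMb with hMb | hMb
    · refine ⟨a1, ha1, by rw [hdp, M1]; simp, rel M hca hcb hc1 hMa hMb M1 (γ := w - z) ?_⟩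
      funext i
      fin_cases i
      · simp
        ring
      · simp
      · simp
    · obtain ⟨⟨d, hd, cd, hcd, Md⟩, -, -⟩ := hz (w / z) (by rw [div_pow, hzr, hwr, div_one])
      refine ⟨d, hd, by rw [hdp, Md]; simp, rel M hca hcb hcd hMa hMb Md (γ := -z) ?_⟩
      funext i
      fin_cases i
      · simp
      · simp
        field_simp
      · simp
    · obtain ⟨⟨d, hd, cd, hcd, Md⟩, -, -⟩ := hz (z / w) (by rw [div_pow, hzr, hwr, div_one])
      refine ⟨d, hd, by rw [hdp, Md]; simp, rel M hca hcb hcd hMa hMb Md (γ := w) ?_⟩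
      funext i
      fin_cases i
      · simp
      · simp
        field_simp
      · simp
    · refine ⟨a2, ha2, by rw [hdp, M2]; simp, rel M hca hcb hc2 hMa hMb M2 (γ := w - z) ?_⟩
      funext i
      fin_cases i
      · simp
      · simp
        ring
      · simp

end Pool.Agent.Lib.MP_70c3c6_co.FG
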