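import Pool.Agent.Lib.MP_70c3c6_co.FG.Spec

/-!
# OCG (helper37): all `3r+2` lines occur
-/

set_option autoImplicit false
open Classical

namespace Pool.Agent.Lib.MP_70c3c6_co.FG

open Pool.Agent.Lib.MP_70c3c6_co.EQ

namespace OCGM

/-- two elements with the same direction are equal -/
lemma same {A : Finset V3} (hA : Arr A) (M : V3 ≃ₗ[ℂ] V3) {a b v : V3} {ca cb : ℂ} (ha : a ∈ A)
    (hb : b ∈ A) (hcb : cb ≠ 0) (Ma : M a = ca • v) (Mb : M b = cb • v) : a = b := by
  by_contra hne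
  have h0 : cb • a + (-ca) • b = 0 := by
    apply M.injective
    rw [map_zero, map_add, map_smul, map_smul, Ma, Mb]
    funext i
    simp only [Pi.add_apply, Pi.smul_apply, smul_eq_mul, Pi.zero_apply]
    ring
  exact hcb (LinearIndependent.pair_iff.mp (hA.li a ha b hb hne) cb (-ca) h0).1

/-- the roots of unity -/
noncomputable def Z (r : ℕ) : Finset ℂ := Polynomial.nthRootsFinset r (1 : ℂ)

lemma card_Z (r : ℕ) : (Z r).card ≤ r := by
  unfold Z Polynomial.nthRootsFinset
  exact le_trans (Multiset.toFinset_card_le _) (Polynomial.card_nthRoots r 1)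

lemma mem_Z {r : ℕ} (hr : 1 ≤ r) {z : ℂ} : z ∈ Z r ↔ z ^ r = 1 :=
  Polynomial.mem_nthRootsFinset hr 1

/-- all directions -/
noncomputable def Dr (r : ℕ) : Finset V3 :=
  (((({![1, 0, 0]} ∪ {![0, 1, 0]}) ∪ (Z r).image (fun z => (![1, -z, 0] : V3))) ∪
    (Z r).image (fun z => (![-z, 0, 1] : V3))) ∪ (Z r).image (fun z => (![0, -z, 1] : V3)))

lemma card_Dr (r : ℕ) : (Dr r).card ≤ 3 * r + 2 := by
  unfold Dr
  have h1 := Finset.card_union_le
    ((({![1, 0, 0]} ∪ {![0, 1, 0]}) ∪ (Z r).image (fun z => (![1, -z, 0] : V3))) ∪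
    (Z r).image (fun z => (![-z, 0, 1] : V3))) ((Z r).image (fun z => (![0, -z, 1] : V3)))
  have h2 := Finset.card_union_le
    (({![1, 0, 0]} ∪ {![0, 1, 0]}) ∪ (Z r).image (fun z => (![1, -z, 0] : V3)))
    ((Z r).image (fun z => (![-z, 0, 1] : V3)))
  have h3 := Finset.card_union_le ({![1, 0, 0]} ∪ {![0, 1, 0]})
    ((Z r).image (fun z => (![1, -z, 0] : V3)))
  have h4 := Finset.card_union_le ({![1, 0, 0]} : Finset V3) {![0, 1, 0]}
  rw [Finset.card_singleton, Finset.card_singleton] at h4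
  have h5 : ((Z r).image (fun z => (![1, -z, 0] : V3))).card ≤ r :=
    Finset.card_image_le.trans (card_Z r)
  have h6 : ((Z r).image (fun z => (![-z, 0, 1] : V3))).card ≤ r :=
    Finset.card_image_le.trans (card_Z r)
  have h7 : ((Z r).image (fun z => (![0, -z, 1] : V3))).card ≤ r :=
    Finset.card_image_le.trans (card_Z r)
  omega

end OCGM

open OCGM in
theorem specOCG : SpecOCG := by
  intro A r M hA hr hcard hF
  have hm : ∀ a ∈ A, ∃ v ∈ Dr r, ∃ c : ℂ, c ≠ 0 ∧ M a = c • v := by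
    intro a ha
    obtain ⟨z, hz, c, hc, h⟩ := hF a ha
    have hz' := (mem_Z hr).2 hz
    rcases h with h | h | h | h | h
    · exact ⟨_, by simp [Dr], c, hc, h⟩
    · exact ⟨_, by simp [Dr], c, hc, h⟩
    · refine ⟨_, ?_, c, hc, h⟩
      simp only [Dr, Finset.mem_union]
      exact Or.inl (Or.inl (Or.inr (Finset.mem_image_of_mem _ hz')))
    · refine ⟨_, ?_, c, hc, h⟩
      simp only [Dr, Finset.mem_union]
      exact Or.inl (Or.inr (Finset.mem_image_of_mem _ hz'))
    · refine ⟨_, ?_, c, hc, h⟩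
      simp only [Dr, Finset.mem_union]
      exact Or.inr (Finset.mem_image_of_mem _ hz')
  choose! v hv c hc hM using hm
  have hinj : Set.InjOn v (A : Set V3) := by
    intro a ha b hb hab
    have h1 := hM a ha
    rw [hab] at h1
    exact same hA M ha hb (hc b hb) h1 (hM b hb)
  have himg : A.image v = Dr r := by
    apply Finset.eq_of_subset_of_card_le
    · intro d hd
      obtain ⟨a, ha, rfl⟩ := Finset.mem_image.1 hd
      exact hv a ha
    · rw [Finset.card_image_of_injOn hinj, hcard]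
      exact card_Dr r
  have hon : ∀ d ∈ Dr r, ∃ a ∈ A, ∃ c : ℂ, c ≠ 0 ∧ M a = c • d := by
    intro d hd
    rw [← himg] at hd
    obtain ⟨a, ha, rfl⟩ := Finset.mem_image.1 hd
    exact ⟨a, ha, c a, hc a ha, hM a ha⟩
  refine ⟨hon _ (by simp [Dr]), hon _ (by simp [Dr]), ?_⟩
  intro z hz
  have hz' := (mem_Z hr).2 hz
  refine ⟨hon _ ?_, hon _ ?_, hon _ ?_⟩
  · simp only [Dr, Finset.mem_union]
    exact Or.inl (Or.inl (Or.inr (Finset.mem_image_of_mem _ hz')))
  · simp only [Dr, Finset.mem_union]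
    exact Or.inl (Or.inr (Finset.mem_image_of_mem _ hz'))
  · simp only [Dr, Finset.mem_union]
    exact Or.inr (Finset.mem_image_of_mem _ hz')

end Pool.Agent.Lib.MP_70c3c6_co.FG
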