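import Pool.Agent.Lib.MP_70c3c6_co.FG.Spec

/-!
# MP_70c3c6_co, FG: module ONE (there are at least two classes)
-/

set_option autoImplicit false
open Classical Polynomial

namespace Pool.Agent.Lib.MP_70c3c6_co.FG

open Pool.Agent.Lib.MP_70c3c6_co.EQ

namespace ONEM

theorem monicW (E : Finset ℂ) : (WW E).Monic :=
  monic_prod_of_monic _ _ (fun e _ => monic_X_sub_C e)

theorem degW (E : Finset ℂ) : (WW E).natDegree = E.card := by
  unfold WW
  rw [natDegree_prod_of_monic _ _ (fun e _ => monic_X_sub_C e)]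
  simp

theorem evalW (E : Finset ℂ) (e : ℂ) (he : e ∈ E) : (WW E).eval e = 0 := by
  unfold WW
  rw [eval_prod]
  exact Finset.prod_eq_zero he (by simp)

theorem evalW_ne (E : Finset ℂ) (e : ℂ) (he : e ∉ E) : (WW E).eval e ≠ 0 := by
  unfold WW
  rw [eval_prod]
  refine Finset.prod_ne_zero_iff.mpr fun s hs => ?_
  rw [eval_sub, eval_X, eval_C]
  intro h
  have h1 : e = s := sub_eq_zero.mp h
  rw [h1] at he
  exact he hs

theorem core (E : Finset ℂ) (t : ℂ) (ht : t ∈ E) (h3 : 3 ≤ E.card)
    (h : ∀ e ∈ E, e ≠ t → (e - t) * (derivative (derivative (WW E))).eval e =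
      2 * ((E.card : ℂ) - 1) * (derivative (WW E)).eval e) : False := by
  have hWG : WW E = (X - C t) * WW (E.erase t) := by
    unfold WW
    exact (Finset.mul_prod_erase E (fun e => X - C e) ht).symm
  obtain ⟨m, hm⟩ : ∃ m, E.card = m + 2 := ⟨E.card - 2, by omega⟩
  have hcard : (E.erase t).card = m + 1 := by
    rw [Finset.card_erase_of_mem ht, hm]
    rfl
  have hWd := degW E
  have hGd := degW (E.erase t)
  rw [hm] at hWd
  rw [hcard] at hGd
  have hWm := monicW E
  have hGm := monicW (E.erase t)
  have hG0 := evalW_ne (E.erase t) t (Finset.notMem_erase t E)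
  have hGe : ∀ e ∈ E.erase t, (WW (E.erase t)).eval e = 0 := fun e he => evalW _ e he
  generalize WW (E.erase t) = G at hWG hGd hGm hG0 hGe
  generalize WW E = W at h hWG hWd hWm
  have hWc : ∀ k, m + 2 < k → W.coeff k = 0 := fun k hk =>
    coeff_eq_zero_of_natDegree_lt (by rw [hWd]; exact hk)
  have hGc : ∀ k, m + 1 < k → G.coeff k = 0 := fun k hk =>
    coeff_eq_zero_of_natDegree_lt (by rw [hGd]; exact hk)
  have hW1 : W.coeff (m + 2) = 1 := by
    rw [← hWd]
    exact hWm.coeff_natDegree
  have hG1 : G.coeff (m + 1) = 1 := by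
    rw [← hGd]
    exact hGm.coeff_natDegree
  have hP : (X - C t) * derivative (derivative W) - C (2 * ((m : ℂ) + 1)) * derivative W +
      C (((m : ℂ) + 2) * ((m : ℂ) + 1)) * G = 0 := by
    refine eq_zero_of_degree_lt_of_eval_finset_eq_zero (E.erase t) ?_ ?_
    · rw [hcard, degree_lt_iff_coeff_zero]
      intro k hk
      obtain ⟨j, rfl⟩ : ∃ j, k = j + 1 := ⟨k - 1, by omega⟩
      rw [coeff_add, coeff_sub, sub_mul, coeff_sub, coeff_X_mul, coeff_C_mul, coeff_C_mul,
        coeff_C_mul, coeff_derivative, coeff_derivative, coeff_derivative, coeff_derivative]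
      rcases Nat.lt_or_ge m j with h1 | h1
      · rw [hWc (j + 1 + 1) (by omega), hWc (j + 1 + 1 + 1) (by omega), hGc (j + 1) (by omega)]
        ring
      · have h2 : j = m := by omega
        subst h2
        rw [hWc (j + 1 + 1 + 1) (by omega), hW1, hG1]
        push_cast
        ring
    · intro e he
      have he' := Finset.mem_erase.mp he
      have h1 := h e he'.2 he'.1
      rw [hm] at h1
      rw [eval_add, eval_sub, eval_mul, eval_mul, eval_mul, eval_sub, eval_X, eval_C, eval_C,
        eval_C, hGe e he, h1]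
      push_cast
      ring
  have h4 := congrArg (eval t) hP
  rw [eval_add, eval_sub, eval_mul, eval_mul, eval_mul, eval_sub, eval_X, eval_C, eval_C,
    eval_C, hWG, derivative_mul, eval_add, eval_mul, eval_mul, derivative_sub, derivative_X,
    derivative_C, eval_sub, eval_sub, eval_X, eval_C, eval_zero, eval_one] at h4
  have h5 : ((m : ℂ) + 1) * (m : ℂ) * G.eval t = 0 := by
    linear_combination h4
  rcases mul_eq_zero.mp h5 with h6 | h6
  · rcases mul_eq_zero.mp h6 with h7 | h7
    · exact absurd h7 (Nat.cast_add_one_ne_zero m)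
    · have h8 : m = 0 := by exact_mod_cast h7
      omega
  · exact hG0 h6

end ONEM

open ONEM in
theorem specONE (hKEY : SpecKEY) : SpecONE := by
  intro ι _ x y τ E H
  by_contra hcon
  push Not at hcon
  have hlt := H.lt
  have hne : Nonempty ι := by
    rw [← Fintype.card_pos_iff]
    omega
  obtain ⟨i⟩ := hne
  refine core E (τ i) (H.tau i) H.three fun e he het => ?_
  obtain ⟨j, hj, rfl⟩ := H.cover i e he het
  have h1 := hKEY ι x y τ E H i j (Ne.symm hj)
  rw [← hcon i j] at h1
  have h2 : ms x y i j - τ i ≠ 0 := sub_ne_zero.mpr het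
  refine mul_left_cancel₀ h2 ?_
  linear_combination h1

end Pool.Agent.Lib.MP_70c3c6_co.FG
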