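import Pool.Agent.Lib.MP_70c3c6_co.FG.Spec

/-!
MP_70c3c6_co, module PNT: the point p
-/

set_option autoImplicit false
open Classical Polynomial

namespace Pool.Agent.Lib.MP_70c3c6_co.FG

open Pool.Agent.Lib.MP_70c3c6_co.EQ

theorem specPNT : SpecPNT := by
  intro M
  obtain ⟨φ, hφ⟩ : ∃ φ : V3 →ₗ[ℂ] ℂ, ∀ a, φ a = M a 2 :=
    ⟨(LinearMap.proj 2).comp M.toLinearMap, fun a => rfl⟩
  have key : ∀ a : V3, dotProduct a (fun n => φ (fun j => if n = j then 1 else 0)) = M a 2 := by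
    intro a
    rw [← hφ, LinearMap.pi_apply_eq_sum_univ φ a]
    simp [dotProduct]
  refine ⟨fun n => φ (fun j => if n = j then 1 else 0), ?_, key⟩
  intro h0
  have h1 := key (M.symm ![0, 0, 1])
  rw [h0, LinearEquiv.apply_symm_apply] at h1
  simp at h1

end Pool.Agent.Lib.MP_70c3c6_co.FG
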