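import Pool.Agent.Lib.MP_70c3c6_co.FG.Spec

/-!
# MP_70c3c6_co, FG: module RIC (three points on a line are in the same class)
-/

set_option autoImplicit false
open Classical Polynomial

namespace Pool.Agent.Lib.MP_70c3c6_co.FG

open Pool.Agent.Lib.MP_70c3c6_co.EQ

theorem specRIC : SpecRIC := by
  intro ι _ x y τ E lam H hlam
  refine ⟨?_, ?_⟩
  · intro i j l hji hli hjl he
    have hx : ∀ a b : ι, a ≠ b → x b - x a ≠ 0 := fun a b h =>
      sub_ne_zero.mpr (H.inj.ne (Ne.symm h))
    have e1 : y j - y i = ms x y i j * (x j - x i) := by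
      unfold ms
      rw [div_mul_cancel₀ _ (hx i j (Ne.symm hji))]
    have e2 : y l - y i = ms x y i j * (x l - x i) := by
      rw [he]
      unfold ms
      rw [div_mul_cancel₀ _ (hx i l (Ne.symm hli))]
    have e3 : ms x y j l = ms x y i j := by
      have h1 : y l - y j = ms x y i j * (x l - x j) := by linear_combination e2 - e1
      have h2 : ms x y j l = (y l - y j) / (x l - x j) := rfl
      rw [h2, h1, mul_div_assoc, div_self (hx j l hjl), mul_one]
    have k1 := hlam i j (Ne.symm hji)
    have k2 := hlam i l (Ne.symm hli)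
    have k3 := hlam j l hjl
    rw [← he] at k2
    rw [e3] at k3
    generalize ms x y i j = e at k1 k2 k3
    have u1 : (e - τ j)⁻¹ = (e - τ l)⁻¹ := by linear_combination k1 - k2
    have u2 : (e - τ l)⁻¹ = (e - τ i)⁻¹ := by linear_combination k3 - k1
    have v1 := inv_injective u1
    have v2 := inv_injective u2
    refine ⟨?_, ?_⟩
    · linear_combination -v1 - v2
    · linear_combination -v2
  · intro i
    have hcard : (E.erase (τ i)).card < (Finset.univ.erase i : Finset ι).card := by
      rw [Finset.card_erase_of_mem (H.tau i), Finset.card_erase_of_mem (Finset.mem_univ i),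
        Finset.card_univ]
      have h1 := H.lt
      have h2 := H.three
      omega
    obtain ⟨j, hj, l, hl, hjl, he⟩ := Finset.exists_ne_map_eq_of_card_lt_of_maps_to hcard
      (f := fun j => ms x y i j) (fun j hj => by
        have hj' : j ≠ i := (Finset.mem_erase.mp hj).1
        exact Finset.mem_erase.mpr ⟨H.tang i j (Ne.symm hj'), H.chord i j (Ne.symm hj')⟩)
    exact ⟨j, l, (Finset.mem_erase.mp hj).1, (Finset.mem_erase.mp hl).1, hjl, he⟩

end Pool.Agent.Lib.MP_70c3c6_co.FG
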