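import Pool.Agent.Lib.MP_70c3c6_co.FG.Spec

/-! Module SFG of `FG/Spec.lean`: from the two classes to the standard form. -/

set_option autoImplicit false
open Classical Polynomial

namespace Pool.Agent.Lib.MP_70c3c6_co.FG

open Pool.Agent.Lib.MP_70c3c6_co.EQ

namespace SFGM

theorem ms_symm {ι : Type} (x y : ι → ℂ) (i j : ι) : ms x y j i = ms x y i j := by
  unfold ms
  rw [← neg_sub (y j) (y i), ← neg_sub (x j) (x i), neg_div_neg_eq]

theorem ms_mul {ι : Type} {x y : ι → ℂ} {i j : ι} (h : x j ≠ x i) :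
    y j - y i = ms x y i j * (x j - x i) := by
  unfold ms
  rw [div_mul_cancel₀]
  exact sub_ne_zero.2 h

/-- the product over a class as a product over the slopes -/
theorem prod_cls {ι : Type} [Fintype ι] {y : ι → ℂ} {P : ι → Prop} {D : Finset ℂ} (φ : ℂ → ℂ)
    (hinj : Set.InjOn y {j | P j}) (him : (Finset.univ.filter fun j => P j).image y = D) :
    ∏ j ∈ Finset.univ.filter (fun j => P j), φ (y j) = ∏ e ∈ D, φ e := by
  rw [← him, Finset.prod_image]
  intro a ha b hb hab
  exact hinj (by simpa using ha) (by simpa using hb) hab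

theorem card_cls {ι : Type} [Fintype ι] {y : ι → ℂ} {P : ι → Prop} {D : Finset ℂ}
    (hinj : Set.InjOn y {j | P j}) (him : (Finset.univ.filter fun j => P j).image y = D) :
    (Finset.univ.filter fun j => P j).card = D.card := by
  rw [← him, Finset.card_image_of_injOn]
  intro a ha b hb hab
  exact hinj (by simpa using ha) (by simpa using hb) hab

/-- an `r`-th root -/
theorem root {r : ℕ} (hr : 0 < r) {U : ℂ} (hU : U ≠ 0) : ∃ k : ℂ, k ≠ 0 ∧ k ^ r * U = 1 := by
  obtain ⟨k, hk⟩ := IsAlgClosed.exists_pow_nat_eq (U⁻¹) hr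
  refine ⟨k, ?_, ?_⟩
  · rintro rfl
    rw [zero_pow hr.ne'] at hk
    exact inv_ne_zero hU hk.symm
  · rw [hk, inv_mul_cancel₀ hU]

end SFGM

theorem specSFG (hTWC : SpecTWC) (hBIJ : SpecBIJ) : SpecSFG := by
  intro ι _ x y τ E h
  obtain ⟨t, w, tw⟩ := hTWC ι x y τ E h
  obtain ⟨hI, hJ⟩ := hBIJ ι x y τ E t w h tw
  obtain ⟨i0, hi0⟩ := tw.ext
  obtain ⟨j0, hj0⟩ := tw.exw
  have htE : t ∈ E := hi0 ▸ h.tau i0
  have hwE : w ∈ E := hj0 ▸ h.tau j0
  have hD : ((E.erase t).erase w).card + 2 = E.card := by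
    have h1 := Finset.card_erase_add_one htE
    have h2 := Finset.card_erase_add_one (Finset.mem_erase.2 ⟨tw.ne.symm, hwE⟩ : w ∈ E.erase t)
    omega
  have cJ := SFGM.card_cls (hI i0 hi0).1 (hI i0 hi0).2
  have cI := SFGM.card_cls (hJ j0 hj0).1 (hJ j0 hj0).2
  have hmD : ∀ e, e ∈ (E.erase t).erase w → e ≠ t ∧ e ≠ w := fun e he => by
    rw [Finset.mem_erase, Finset.mem_erase] at he
    exact ⟨he.2.1, he.1⟩
  have hID : ∀ i j, τ i = t → τ j = w → ms x y i j ∈ (E.erase t).erase w := fun i j hi hj => by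
    rw [← (hI i hi).2]
    exact Finset.mem_image_of_mem _ (Finset.mem_filter.2 ⟨Finset.mem_univ _, hj⟩)
  generalize hDD : (E.erase t).erase w = D at *
  have hcard : Fintype.card ι = 2 * D.card := by
    have hU : (Finset.univ : Finset ι) = (Finset.univ.filter fun j => τ j = t) ∪ (Finset.univ.filter fun j => τ j = w) := by
      ext i
      simp only [Finset.mem_univ, Finset.mem_union, Finset.mem_filter, true_and, true_iff]
      exact tw.all i
    have hdis : Disjoint (Finset.univ.filter fun j => τ j = t) (Finset.univ.filter fun j => τ j = w) := by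
      rw [Finset.disjoint_left]
      intro i hi hi'
      rw [Finset.mem_filter] at hi hi'
      exact tw.ne (hi.2.symm.trans hi'.2)
    rw [← Finset.card_univ, hU, Finset.card_union_of_disjoint hdis, cI, cJ]
    ring
  have hr3 : 3 ≤ D.card := by
    have := h.lt
    omega
  have hr0 : 0 < D.card := by omega
  refine ⟨D.card, hr3, hD.symm, hcard, ?_⟩
  -- the two lines
  have hxne : ∀ i j, i ≠ j → x j ≠ x i := fun i j hij hx => hij (h.inj hx).symm
  have hIJ : ∀ i j, τ i = t → τ j = w → i ≠ j := fun i j hi hj hij => by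
    subst hij
    exact tw.ne (hi.symm.trans hj)
  generalize hh : y i0 - w * x i0 = c
  generalize hh' : y j0 - t * x j0 = c'
  have lI : ∀ i, τ i = t → y i - w * x i - c = 0 := fun i hi => by
    by_cases h0 : i0 = i
    · rw [← h0, ← hh]
      ring
    · have h1 := tw.ct i0 i h0 hi0 hi
      have h2 := SFGM.ms_mul (y := y) (hxne i0 i h0)
      rw [h1] at h2
      rw [← hh]
      linear_combination h2
  have lJ : ∀ j, τ j = w → y j - t * x j - c' = 0 := fun j hj => by
    by_cases h0 : j0 = j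
    · rw [← h0, ← hh']
      ring
    · have h1 := tw.cw j0 j h0 hj0 hj
      have h2 := SFGM.ms_mul (y := y) (hxne j0 j h0)
      rw [h1] at h2
      rw [← hh']
      linear_combination h2
  obtain ⟨u, hu⟩ : ∃ u : ι → ℂ, ∀ i, u i = y i - t * x i - c' := ⟨_, fun _ => rfl⟩
  obtain ⟨v, hv⟩ : ∃ v : ι → ℂ, ∀ i, v i = -(y i - w * x i - c) := ⟨_, fun _ => rfl⟩
  have hvj : ∀ i j, τ i = t → τ j = w → v j = -((ms x y i j - w) * (x j - x i)) := fun i j hi hj => by
    have h1 := SFGM.ms_mul (y := y) (hxne i j (hIJ i j hi hj))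
    have h2 := lI i hi
    rw [hv]
    linear_combination -h1 - h2
  have hui : ∀ i j, τ i = t → τ j = w → u i = -((ms x y i j - t) * (x j - x i)) := fun i j hi hj => by
    have h1 := SFGM.ms_mul (y := y) (hxne i j (hIJ i j hi hj))
    have h2 := lJ j hj
    rw [hu]
    linear_combination -h1 + h2
  have hu0 : ∀ i, τ i = t → u i ≠ 0 := fun i hi => by
    rw [hui i j0 hi hj0]
    exact neg_ne_zero.2 (mul_ne_zero (sub_ne_zero.2 (hmD _ (hID i j0 hi hj0)).1)
      (sub_ne_zero.2 (hxne i j0 (hIJ i j0 hi hj0))))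
  have hv0 : ∀ j, τ j = w → v j ≠ 0 := fun j hj => by
    rw [hvj i0 j hi0 hj]
    exact neg_ne_zero.2 (mul_ne_zero (sub_ne_zero.2 (hmD _ (hID i0 j hi0 hj)).2)
      (sub_ne_zero.2 (hxne i0 j (hIJ i0 j hi0 hj))))
  have hphi : ∀ i j, τ i = t → τ j = w → v j = (ms x y i j - w) / (ms x y i j - t) * u i := fun i j hi hj => by
    rw [hvj i j hi hj, hui i j hi hj]
    have h1 := sub_ne_zero.2 (hmD _ (hID i j hi hj)).1
    field_simp
  generalize hQ : ∏ e ∈ D, (e - w) / (e - t) = Q
  have hQ0 : Q ≠ 0 := by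
    rw [← hQ]
    refine Finset.prod_ne_zero_iff.2 (fun e he => ?_)
    exact div_ne_zero (sub_ne_zero.2 (hmD e he).2) (sub_ne_zero.2 (hmD e he).1)
  -- the products
  have pI : ∀ i, τ i = t → ∏ j ∈ Finset.univ.filter (fun j => τ j = w), v j = Q * u i ^ D.card := fun i hi => by
    calc ∏ j ∈ Finset.univ.filter (fun j => τ j = w), v j
        = ∏ j ∈ Finset.univ.filter (fun j => τ j = w), ((ms x y i j - w) / (ms x y i j - t) * u i) := by
          refine Finset.prod_congr rfl (fun j hj => hphi i j hi (Finset.mem_filter.1 hj).2)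
      _ = Q * u i ^ D.card := by
          rw [Finset.prod_mul_distrib, Finset.prod_const, cJ, ← hQ]
          congr 1
          exact SFGM.prod_cls (fun e => (e - w) / (e - t)) (hI i hi).1 (hI i hi).2
  have pJ : ∀ j, τ j = w → v j ^ D.card = Q * ∏ i ∈ Finset.univ.filter (fun i => τ i = t), u i := fun j hj => by
    calc v j ^ D.card = ∏ i ∈ Finset.univ.filter (fun i => τ i = t), v j := by rw [Finset.prod_const, cI]
      _ = ∏ i ∈ Finset.univ.filter (fun i => τ i = t), ((ms x y j i - w) / (ms x y j i - t) * u i) := by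
          refine Finset.prod_congr rfl (fun i hi => ?_)
          rw [SFGM.ms_symm x y i j]
          exact hphi i j (Finset.mem_filter.1 hi).2 hj
      _ = Q * ∏ i ∈ Finset.univ.filter (fun i => τ i = t), u i := by
          rw [Finset.prod_mul_distrib, ← hQ]
          congr 1
          exact SFGM.prod_cls (fun e => (e - w) / (e - t)) (hJ j hj).1 (hJ j hj).2
  have uI : ∀ i, τ i = t → u i ^ D.card = u i0 ^ D.card := fun i hi =>
    mul_left_cancel₀ hQ0 ((pI i hi).symm.trans (pI i0 hi0))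
  have vJ : ∀ j, τ j = w → v j ^ D.card = v j0 ^ D.card := fun j hj => (pJ j hj).trans (pJ j0 hj0).symm
  obtain ⟨k, hk0, hk⟩ := SFGM.root hr0 (pow_ne_zero D.card (hu0 i0 hi0))
  obtain ⟨l, hl0, hl⟩ := SFGM.root hr0 (pow_ne_zero D.card (hv0 j0 hj0))
  have zI : ∀ i, τ i = t → (k * u i) ^ D.card = 1 := fun i hi => by rw [mul_pow, uI i hi, hk]
  have zJ : ∀ j, τ j = w → (l * v j) ^ D.card = 1 := fun j hj => by rw [mul_pow, vJ j hj, hl]
  refine ⟨k * t, -k, k * c', -(l * w), l, -(l * c), ?_, ?_, ?_⟩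
  · have e : k * t * l - -(l * w) * -k = k * l * (t - w) := by ring
    rw [e]
    exact mul_ne_zero (mul_ne_zero hk0 hl0) (sub_ne_zero.2 tw.ne)
  · intro i
    rcases tw.all i with hi | hi
    · refine ⟨k * u i, zI i hi, Or.inl ⟨?_, ?_⟩⟩
      · rw [hu]
        ring
      · linear_combination l * lI i hi
    · refine ⟨l * v i, zJ i hi, Or.inr ⟨?_, ?_⟩⟩
      · linear_combination -k * lJ i hi
      · rw [hv]
        ring
  · intro σ hσ
    by_cases h1 : σ = t
    · left
      rw [h1]
      ring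
    by_cases h2 : σ = w
    · right
      left
      rw [h2]
      ring
    right
    right
    have h3 : σ ∈ D := by
      rw [← hDD]
      exact Finset.mem_erase.2 ⟨h2, Finset.mem_erase.2 ⟨h1, hσ⟩⟩
    rw [← (hI i0 hi0).2] at h3
    obtain ⟨j, hj, hjσ⟩ := Finset.mem_image.1 h3
    have hj' := (Finset.mem_filter.1 hj).2
    have hz := zI i0 hi0
    have hz' := zJ j hj'
    have e1 := hphi i0 j hi0 hj'
    rw [hjσ] at e1
    refine ⟨l * v j / (k * u i0), ?_, ?_⟩
    · rw [div_pow, hz, hz', div_one]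
    · have h4 := hu0 i0 hi0
      have h5 := sub_ne_zero.2 h1
      rw [e1]
      field_simp
      ring

end Pool.Agent.Lib.MP_70c3c6_co.FG
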