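import Pool.Agent.Lib.MP_70c3c6_co.EQ.Spec

/-!
MP_70c3c6_co, the extremal arrangements.  THEOREM.  A complex line arrangement, not a pencil, has a
modular point p such that t_2 is the number of the lines off p (t_2 is never smaller) iff it is
projectively the arrangement of the sides and axes of a regular n-gon (n at least 3) or
x y (x^r - y^r)(y^r - z^r)(z^r - x^r) = 0 (r at least 3).

Plan.  k lines off p, m lines through p.  t_2 = k forces m at most k, m at least 3, and every line off
p has exactly one double point.  If m = k then t_2 = s/2 and EQ applies.  Let m < k.  Dually (SysG):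
k points P_i = (x_i, y_i), a set E of m slopes containing all slopes m_ij of chords, tau_i in E is
seen from P_i by no chord, every other e in E is seen.

KEY RELATION (KEY).  W = the product of (X - e), e in E.  For i, j distinct, e = m_ij:
W''(e)/W'(e) = (m - 1) (1/(e - tau_i) + 1/(e - tau_j)).
Proof.  There is H in C[X][Y] of total degree at most m with H(X, F_i) = - x_i W, F_i = y_i - x_i X
(INT, HPO: the vector field W d/dX + H d/dY of the supersolvable arrangement).  c_i = H_Y(X, F_i) is
W' at the slopes seen from P_i and has degree m - 1 and leading coefficient 1 (TOP, here k > m), so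
c_i = W' - (m-1) W/(X - tau_i) (CLF).  At e = m_ij Taylor's formula gives c_i'(e) + c_j'(e) = W''(e)
(TAY, CRX).  Together this is KEY.

CLASSES.  Hence tau_j is a function of tau_i and e = m_ij: an involution of the projective line with
fixed point e preserves T = {tau_i}.  Three points on a line have the same tau (RIC), and every
point is on such a line.  In the chart with t in T at infinity the involution belonging to a chord in the
class of t is a half turn, so its slope is the centroid of T - {t} (CEN).  For w in T, w not t,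
there are at least three e in E whose involution exchanges t and w; two of these involutions which
are not (y - w)(y' - w) = rho with the same rho give a similarity with centre w which
preserves T - {t}, so w is the centroid of T - {t} (TWR).  So T = {t, w} (TWC; T = {t} is impossible, ONE),
the class of t is on a line of slope w, the class of w on a line of slope t, and the chords between the
classes have the other slopes, each once from every point (BIJ).  SFG: product over these slopes.
-/

set_option autoImplicit false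
open Classical Polynomial

namespace Pool.Agent.Lib.MP_70c3c6_co.FG

open Pool.Agent.Lib.MP_70c3c6_co.EQ

/-- a system of points with more points than slopes -/
structure SysG {ι : Type} [Fintype ι] (x y τ : ι → ℂ) (E : Finset ℂ) : Prop where
  inj : Function.Injective x
  lt : E.card < Fintype.card ι
  three : 3 ≤ E.card
  tau : ∀ i, τ i ∈ E
  chord : ∀ i j, i ≠ j → ms x y i j ∈ E
  tang : ∀ i j, i ≠ j → ms x y i j ≠ τ i
  cover : ∀ i, ∀ e ∈ E, e ≠ τ i → ∃ j, j ≠ i ∧ ms x y i j = e

/-- the polynomial with the simple roots E -/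
noncomputable def WW (E : Finset ℂ) : ℂ[X] := ∏ e ∈ E, (X - C e)

/-- INT, interpolation.  Proof: a copy of `MPss.interp` in Interp.lean with X0 := E: the hypothesis H
is used there only for heX (the crossing points are in X0) and `mem_rts` only for hcX (the c i
are in X0); both are hypotheses here (third and fourth).  `MPss.gx E z` is the product over
E.erase z and (X - C z) * gx E z = WW E (`MPss.gx_mul`). -/
def SpecINT : Prop := ∀ (ι : Type) (S : Finset ι) (a b : ι → ℂ) (E : Finset ℂ),
  (∀ i ∈ S, a i ≠ 0) → (∀ i ∈ S, ∀ j ∈ S, i ≠ j → a i ≠ a j) →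
  (∀ i ∈ S, -b i / a i ∈ E) →
  (∀ i ∈ S, ∀ j ∈ S, i ≠ j → -(b i - b j) / (a i - a j) ∈ E) →
  ∃ B : ℂ[X][X], MPss.TD B (E.card - 1) ∧
    ∀ j ∈ S, (X - C (-b j / a j)) * B.eval (C (a j) * X + C (b j)) = WW E

/-- HPO.  Proof: INT with S = univ.erase i0, a j = - x j, b j = y j: x j is not 0 (inj, x i0 = 0),
-b j/a j = y j/x j = ms i0 j is in E, the crossing of i, j is ms i j.  H = X * B (X the outer variable).
H.eval (F j) = F j * B.eval (F j), F j = - C (x j) * (X - C (y j / x j)).  For i0: F = 0, x = 0.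
TD H: `MPss.TD.mul` with TD X 1, and 1 + (card E - 1) = card E. -/
def SpecHPO : Prop := ∀ (ι : Type) [Fintype ι] (x y τ : ι → ℂ) (E : Finset ℂ), SysG x y τ E →
  ∀ i0, x i0 = 0 → y i0 = 0 → ∃ H : ℂ[X][X], MPss.TD H E.card ∧
    ∀ i, H.eval (C (- x i) * X + C (y i)) = C (- x i) * WW E

/-- TOP.  Proof: `MPss.top_eval` (coefficient m of H.eval f is (top H m).eval (f.coeff 1)): the
polynomial top H m has degree at most m and (top H m).eval (- x i) = - x i for more than m values,
so top H m = X: (H.coeff 1).coeff (m-1) = 1 and (H.coeff l).coeff (m-l) = 0 for the other l at most m.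
derivative H has TD (m-1), its coefficient l is (l+1) H.coeff (l+1), so top (derivative H) (m-1) = 1
and top_eval, `MPss.TD.eval_natDegree_le` for derivative H give the claim. -/
def SpecTOP : Prop := ∀ (ι : Type) [Fintype ι] (x y : ι → ℂ) (m : ℕ) (W : ℂ[X]) (H : ℂ[X][X]),
  Function.Injective x → m < Fintype.card ι → 1 ≤ m → W.Monic → W.natDegree = m → MPss.TD H m →
  (∀ i, H.eval (C (- x i) * X + C (y i)) = C (- x i) * W) →
  ∀ i, ((derivative H).eval (C (- x i) * X + C (y i))).natDegree ≤ m - 1 ∧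
    ((derivative H).eval (C (- x i) * X + C (y i))).coeff (m - 1) = 1

/-- TAY, Taylor's formula to second order.  Proof: additive in H; for monomials C c * X^n by
induction on n (or `Polynomial.induction_on`): the derivative of H * X is derivative H * X + H, the second one
is derivative (derivative H) * X + 2 derivative H. -/
def SpecTAY : Prop := ∀ (H : ℂ[X][X]) (f δ : ℂ[X]), ∃ R : ℂ[X],
  H.eval (f + δ) = H.eval f + δ * (derivative H).eval f +
    C (1 / 2) * δ ^ 2 * (derivative (derivative H)).eval f + δ ^ 3 * R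

/-- CRX, the crossing of two lines.  Proof: W = (X - C e) V.  f = C a * X + C b, f' the other one,
f' - f = C (a'-a) (X - C e) =: d.  TAY for f, d: C (a'-a) W = d c + C(1/2) d^2 s + d^3 R with
c = H_Y(f), s = H_YY(f); cancel C (a'-a) (X - C e): V = c + C(1/2) d s + d^2 R.  At e: c(e) = V(e) = W'(e);
derivative at e: V'(e) = c'(e) + (a'-a)/2 s(e).  Exchange f and f': V'(e) = c2'(e) + (a-a')/2 s2(e), and
s2(e) = s(e) because f(e) = f'(e) (evaluate the coefficients at e first, as in `MPss.card_rts`).
Sum: c'(e) + c2'(e) = 2 V'(e) = W''(e). -/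
def SpecCRX : Prop := ∀ (W : ℂ[X]) (H : ℂ[X][X]) (a b a' b' e : ℂ), a ≠ a' →
  a * e + b = a' * e + b' → W.eval e = 0 →
  H.eval (C a * X + C b) = C a * W → H.eval (C a' * X + C b') = C a' * W →
  ((derivative H).eval (C a * X + C b)).eval e = (derivative W).eval e ∧
  (derivative ((derivative H).eval (C a * X + C b))).eval e +
    (derivative ((derivative H).eval (C a' * X + C b'))).eval e =
    (derivative (derivative W)).eval e

/-- CLF.  Proof: G = the product over E.erase t, W = WW E = (X - C t) G, m = card E.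
c - W' + (m-1) G has degree at most m - 1, its coefficient m - 1 is 1 - m + (m-1) = 0, and it
vanishes at the m - 1 elements of E.erase t: it is 0.  So c' = W'' - (m-1) G', and W' = G + (X - C t) G'
gives W'(e) = (e - t) G'(e) for e in E.erase t. -/
def SpecCLF : Prop := ∀ (E : Finset ℂ) (t : ℂ) (c : ℂ[X]), t ∈ E → c.natDegree ≤ E.card - 1 →
  c.coeff (E.card - 1) = 1 →
  (∀ e ∈ E, e ≠ t → c.eval e = (derivative (WW E)).eval e) →
  ∀ e ∈ E, e ≠ t → (e - t) * (derivative c).eval e =
    (e - t) * (derivative (derivative (WW E))).eval e -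
      ((E.card : ℂ) - 1) * (derivative (WW E)).eval e

/-- KEY.  Proof: fix i, j; x' = x - x i, y' = y - y i is again a SysG with the same ms (x' l - x' n =
x l - x n).  H from HPO for it (i0 = i), c l = (derivative H).eval (F l).  TOP: degree and leading
coefficient (card E < card ι).  For e in E, e not tau l, the j' of cover and CRX (a = - x' l,
a' = - x' j', crossing e = ms l j') give c l (e) = W'(e).  CLF for c i and c j at e = m_ij (not tau_i by
tang, not tau_j by tang and ms i j = ms j i); CRX for i, j: c i '(e) + c j '(e) = W''(e).  Multiply by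
(e - tau_i)(e - tau_j): W'' A B = (A W'' - (m-1) W') B + (B W'' - (m-1) W') A. -/
def SpecKEY : Prop := ∀ (ι : Type) [Fintype ι] (x y τ : ι → ℂ) (E : Finset ℂ), SysG x y τ E →
  ∀ i j, i ≠ j →
    (derivative (derivative (WW E))).eval (ms x y i j) *
      ((ms x y i j - τ i) * (ms x y i j - τ j)) =
    ((E.card : ℂ) - 1) * (derivative (WW E)).eval (ms x y i j) *
      ((ms x y i j - τ i) + (ms x y i j - τ j))

/-- LAM.  Proof: lam e = W''(e) / ((m - 1) W'(e)); W'(e) is not 0 for e in E (simple roots), m - 1 is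
not 0, e - tau_i and e - tau_j are not 0 (tang, ms i j = ms j i). -/
def SpecLAM : Prop := ∀ (ι : Type) [Fintype ι] (x y τ : ι → ℂ) (E : Finset ℂ), SysG x y τ E →
  ∃ lam : ℂ → ℂ, ∀ i j, i ≠ j →
    (ms x y i j - τ i)⁻¹ + (ms x y i j - τ j)⁻¹ = lam (ms x y i j)

/-- ONE, there are at least two classes.  Proof: suppose all tau are t.  By KEY and cover
(e - t) W''(e) = 2 (m-1) W'(e) for all e in E.erase t.  G = product over E.erase t, W = (X - C t) G.
(X - C t) W'' - 2(m-1) W' + m(m-1) G has degree at most m - 1, coefficient m - 1 equal to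
m(m-1) - 2m(m-1) + m(m-1) = 0 and m - 1 zeros, so it is 0; at t: W'(t) = G(t), so
(m-1)(m-2) G(t) = 0, but m is at least 3 and G(t) is not 0. -/
def SpecONE : Prop := ∀ (ι : Type) [Fintype ι] (x y τ : ι → ℂ) (E : Finset ℂ), SysG x y τ E →
  ∃ i j, τ i ≠ τ j

/-- RIC.  Proof: (1) the three points are collinear: ms j l = ms i j =: e (x injective).  With
u = (e - tau)⁻¹ the three sums u_i + u_j, u_i + u_l, u_j + u_l are lam e, so u_i = u_j = u_l, and
the tau are equal (inv_inj).  (2) j -> ms i j maps the at least card E elements other than i into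
E.erase (tau i), which has card E - 1 elements. -/
def SpecRIC : Prop := ∀ (ι : Type) [Fintype ι] (x y τ : ι → ℂ) (E : Finset ℂ) (lam : ℂ → ℂ),
  SysG x y τ E →
  (∀ i j, i ≠ j → (ms x y i j - τ i)⁻¹ + (ms x y i j - τ j)⁻¹ = lam (ms x y i j)) →
  (∀ i j l, j ≠ i → l ≠ i → j ≠ l → ms x y i j = ms x y i l → τ j = τ i ∧ τ l = τ i) ∧
  (∀ i, ∃ j l, j ≠ i ∧ l ≠ i ∧ j ≠ l ∧ ms x y i j = ms x y i l)

/-- every class other than e has a partner class for the direction e -/
def PT (T E : Finset ℂ) (lam : ℂ → ℂ) : Prop :=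
  ∀ e ∈ E, ∀ s ∈ T, s ≠ e → ∃ s' ∈ T, s' ≠ e ∧ (e - s)⁻¹ + (e - s')⁻¹ = lam e

/-- CEN.  Proof: the partner map of e on T' = T.erase t: g s = the s' of PT for s not e, g e = e (if e is
in T').  y(s) = (s - t)⁻¹, x = (e - t)⁻¹.  For s in T', s not e: with al = e - t, p = s - t, p' = s' - t
the relation 1/(al-p) + 1/(al-p') = 2/al says al (p + p') = 2 p p', p is not 0, so p' is not 0
(s' in T') and y(s) + y(g s) = 2 x; this also holds for s = e.  g maps T' to T' and is injective
(y(g s) = 2x - y(s)), so the sum of y over T' is the sum of 2x - y. -/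
def SpecCEN : Prop := ∀ (T E : Finset ℂ) (lam : ℂ → ℂ), PT T E lam → ∀ t ∈ T, ∀ e ∈ E, e ≠ t →
  (e - t)⁻¹ + (e - t)⁻¹ = lam e →
  ((T.erase t).card : ℂ) * (e - t)⁻¹ = ∑ s ∈ T.erase t, (s - t)⁻¹

/-- TWR.  Proof: y(s) = (s - t)⁻¹, om = y(w), x = (e - t)⁻¹, T'' = (T.erase t).erase w.  For s in T'',
s not e, s' its partner: 1/(e-s) = x + x^2/(y(s)-x) (as e - s = 1/x - 1/y), likewise for w and s', and
1/(e-t) = x, so 1/(y(s)-x) + 1/(y(s')-x) = 1/(om-x), that is (y(s)-om)(y(s')-om) = (x-om)^2 =: rho,
rho not 0.  (s' is not t: otherwise (e-s)⁻¹ = (e-w)⁻¹; s' is not w: otherwise (e-s)⁻¹ =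
(e-t)⁻¹.)  Put g e = e if e is in T'': y(e) = x, the same relation.  g maps T'' to T'', injective, so
bijective.  For e' the same with g', rho'.  y(g'(g s)) - om = (rho'/rho)(y(s) - om).  So the sum Q
of y(s) - om over T'' satisfies Q = (rho'/rho) Q: rho = rho' or Q = 0, and then the sum over
T.erase t (its term at w is 0) is 0, which is the second alternative. -/
def SpecTWR : Prop := ∀ (T E : Finset ℂ) (lam : ℂ → ℂ), PT T E lam → ∀ t ∈ T, ∀ w ∈ T, t ≠ w →
  ∀ e ∈ E, ∀ e' ∈ E, e ≠ t → e ≠ w → e' ≠ t → e' ≠ w →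
  (e - t)⁻¹ + (e - w)⁻¹ = lam e → (e' - t)⁻¹ + (e' - w)⁻¹ = lam e' →
  ((e - t)⁻¹ - (w - t)⁻¹) ^ 2 = ((e' - t)⁻¹ - (w - t)⁻¹) ^ 2 ∨
    ((T.erase t).card : ℂ) * (w - t)⁻¹ = ∑ s ∈ T.erase t, (s - t)⁻¹

/-- two classes t and w -/
structure Two {ι : Type} [Fintype ι] (x y τ : ι → ℂ) (t w : ℂ) : Prop where
  ne : t ≠ w
  all : ∀ i, τ i = t ∨ τ i = w
  ext : ∃ i, τ i = t
  exw : ∃ i, τ i = w
  ct : ∀ i j, i ≠ j → τ i = t → τ j = t → ms x y i j = w
  cw : ∀ i j, i ≠ j → τ i = w → τ j = w → ms x y i j = t
  mono : ∀ i j l, j ≠ i → l ≠ i → j ≠ l → ms x y i j = ms x y i l → τ j = τ i ∧ τ l = τ i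

/-- TWC.  Proof: lam from LAM, T = univ.image τ.  PT T E lam: s = tau_i, e in E, e not s: j from cover,
s' = tau_j, not e by tang and ms i j = ms j i.  ONE: T has two elements.  Let t, w in T be distinct,
tau_i = t.  RIC: some j with tau_j = w and the two others of (2) for j are three points
with tau = w, seen from P_i in three different directions e1, e2, e3 (RIC (1): otherwise w = tau_i =
t), all of them different from t, w (tang) and related to t, w by lam.  If the three squares of TWR
were equal, two of the (e_n - t)⁻¹ would be equal; so TWR gives card (T.erase t) (w - t)⁻¹ = the sum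
over T.erase t, for every w in T.erase t: all these w are equal, T = {t, w}, for every choice of t.
CEN for a chord i, j in the class of t (e = ms i j, e not t by tang): 1 (e - t)⁻¹ = (w - t)⁻¹, e = w. -/
def SpecTWC : Prop := ∀ (ι : Type) [Fintype ι] (x y τ : ι → ℂ) (E : Finset ℂ), SysG x y τ E →
  ∃ t w, Two x y τ t w

/-- BIJ.  Proof: let tau_i = t.  Injective on the class of w: ms i j = ms i j', j not j', gives
tau_j = tau_i by mono, absurd.  ms i j is in E, not t (tang i j), not w (tang j i, ms j i = ms i j).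
Onto: e in E, not t, w: j from cover; tau_j = t would give e = w by ct.  The same for w. -/
def SpecBIJ : Prop := ∀ (ι : Type) [Fintype ι] (x y τ : ι → ℂ) (E : Finset ℂ) (t w : ℂ),
  SysG x y τ E → Two x y τ t w →
  (∀ i, τ i = t → Set.InjOn (ms x y i) {j | τ j = w} ∧
    (Finset.univ.filter fun j => τ j = w).image (ms x y i) = (E.erase t).erase w) ∧
  (∀ i, τ i = w → Set.InjOn (ms x y i) {j | τ j = t} ∧
    (Finset.univ.filter fun j => τ j = t).image (ms x y i) = (E.erase t).erase w)

/-- the conclusion of the analytic part -/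
def ConclG {ι : Type} (x y : ι → ℂ) (E : Finset ℂ) (r : ℕ) : Prop :=
  ∃ a1 b1 c1 a2 b2 c2 : ℂ, a1 * b2 - a2 * b1 ≠ 0 ∧
    (∀ i, ∃ ζ : ℂ, ζ ^ r = 1 ∧
      ((a1 * x i + b1 * y i + c1 = - ζ ∧ a2 * x i + b2 * y i + c2 = 0) ∨
       (a1 * x i + b1 * y i + c1 = 0 ∧ a2 * x i + b2 * y i + c2 = - ζ))) ∧
    ∀ σ ∈ E, a1 + b1 * σ = 0 ∨ a2 + b2 * σ = 0 ∨
      ∃ ω : ℂ, ω ^ r = 1 ∧ a2 + b2 * σ = - ω * (a1 + b1 * σ)

/-- SFG.  Proof: I, J = the classes of t, w; by BIJ card I = card J = card E - 2 =: r, so card ι = 2 r,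
r at least 3 (card E < card ι).  The points of I are on y = w x + h, those of J on y = t x + h' (ct, cw).
u = y - t x - h' vanishes on J, v = y - w x - h on I.  For i in I, j in J, e = ms i j:
v_j = (e - w)(x_j - x_i), u_i = -(e - t)(x_j - x_i), both not 0, - v_j/u_i = (e - w)/(e - t).  For
fixed i the e run through E - {t,w} once (BIJ): the product of (- v_j) over J is Q u_i^r,
Q = the product of (e - w)/(e - t) over E - {t,w}; so u_i^r = U for all i in I, U not 0; for
fixed j: (- v_j)^r = Q times the product of the u_i, so v_j^r = V, not 0.  k, l with k^r = (-1)^r/U,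
l^r = (-1)^r/V (`IsAlgClosed.exists_pow_nat_eq`); forms k u and l v: k u_i = - z with z^r = 1, the
same for l v_j.  a1 + b1 s = k (s - t), a2 + b2 s = l (s - w) for a slope s; s = t and s = w are the
first two cases, another s is ms i j for a fixed i in I and some j in J:
l (s - w)/(k (s - t)) = - l v_j/(k u_i) = - z_j/z_i.  a1 b2 - a2 b1 = k l (w - t). -/
def SpecSFG : Prop := ∀ (ι : Type) [Fintype ι] (x y τ : ι → ℂ) (E : Finset ℂ), SysG x y τ E →
  ∃ r, 3 ≤ r ∧ E.card = r + 2 ∧ Fintype.card ι = 2 * r ∧ ConclG x y E r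

/-- the combinatorial content of t_2 = k, k > m -/
structure EqG (A : Finset V3) (p : V3) (t : V3 → V3) : Prop where
  lt : (Ap A p).card < (Aq A p).card
  three : 3 ≤ (Ap A p).card
  mem : ∀ a ∈ Aq A p, t a ∈ Ap A p
  tang : ∀ a ∈ Aq A p, ∀ b ∈ Aq A p, b ≠ a → LinearIndependent ℂ ![a, t a, b]
  cover : ∀ a ∈ Aq A p, ∀ c ∈ Ap A p, c ≠ t a → ∃ b ∈ Aq A p, b ≠ a ∧
    ¬ LinearIndependent ℂ ![a, c, b]

/-- CNG.  Proof: as EQ/CNT.lean and OD/CNS.lean.  m, k = numbers of lines through and off p.  Twice the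
sum over a in Aq of card (good a) is at most card Fn = 2k, and at most card Fn - 2 if m = 2 (the
pairs (c1,c2), (c2,c1) of the lines through p); 1 is at most card (good a) (`exists_double`), and
m + 1 at most card (good a) + k (`count_line`).  So all card (good a) = 1, m is at least 3, m at
most k; if m = k then card Fn = 2k = card A (first alternative), otherwise t a = the element of
good a, cover = c is not in good a. -/
def SpecCNG : Prop := ∀ (A : Finset V3) (p : V3), Arr A → Mod A p →
  (Fn A).card = 2 * (Aq A p).card → (Fn A).card = A.card ∨ ∃ t : V3 → V3, EqG A p t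

/-- CRG.  Proof: as OD/CRS.lean (E = the image of Ap under f1/f0, injective on Ap). -/
def SpecCRG : Prop := ∀ (A : Finset V3) (p : V3) (t : V3 → V3), Arr A → Mod A p → EqG A p t →
  ∃ (f0 f1 : V3 →ₗ[ℂ] ℂ) (τ : {a // a ∈ Aq A p} → ℂ) (E : Finset ℂ),
    (∀ w : V3, f0 w = 0 → f1 w = 0 → dotProduct w p = 0 → w = 0) ∧
    SysG (fun a : {a // a ∈ Aq A p} => f0 a.1 / dotProduct a.1 p)
      (fun a : {a // a ∈ Aq A p} => f1 a.1 / dotProduct a.1 p) τ E ∧
    E.card = (Ap A p).card ∧
    ∀ c ∈ Ap A p, f0 c ≠ 0 ∧ f1 c / f0 c ∈ E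

/-- the lines of A in the coordinates M -/
def InF (A : Finset V3) (r : ℕ) (M : V3 ≃ₗ[ℂ] V3) : Prop :=
  ∀ a ∈ A, ∃ ζ : ℂ, ζ ^ r = 1 ∧ ∃ c : ℂ, c ≠ 0 ∧
    (M a = c • ![1, 0, 0] ∨ M a = c • ![0, 1, 0] ∨ M a = c • ![1, -ζ, 0] ∨
      M a = c • ![-ζ, 0, 1] ∨ M a = c • ![0, -ζ, 1])

/-- the standard form: x = 0, y = 0, x = z y, t = z x, t = z y (z^r = 1) -/
def StdG (A : Finset V3) : Prop := ∃ r : ℕ, 3 ≤ r ∧ A.card = 3 * r + 2 ∧
  ∃ M : V3 ≃ₗ[ℂ] V3, InF A r M

/-- FWG.  Proof: CRG, SFG (ι = the subtype Aq, E.card = card Ap), then as OD/FWS.lean: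
M w = (a1 f0 w + b1 f1 w + c1 (w.p), a2 f0 w + b2 f1 w + c2 (w.p), w.p), injective;
card A = card Ap + card Aq = (r + 2) + 2 r. -/
def SpecFWG : Prop := ∀ (A : Finset V3) (p : V3) (t : V3 → V3), Arr A → Mod A p → EqG A p t →
  StdG A

/-- LOW.  Proof: as in EQ/CNT.lean or in `MPss.main` of Geom.lean: every line a off p has a double point
on a line c through p (`exists_double`), the pairs (a,c), (c,a) are in Fn, and these 2 card Aq
pairs are distinct (a is off p, c is not). -/
def SpecLOW : Prop := ∀ (A : Finset V3) (p : V3), Arr A → Mod A p →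
  2 * (Aq A p).card ≤ (Fn A).card

/-- OCG, all 3r+2 lines occur.  Proof: the map from A to the finite type set {1, 2} + 3 copies of the
r-th roots of unity (at most 3r + 2 elements, `Polynomial.card_nthRoots` or `nthRootsFinset`) is
injective because the elements of A are pairwise independent and M is injective; card A = 3r + 2,
so it is onto. -/
def SpecOCG : Prop := ∀ (A : Finset V3) (r : ℕ) (M : V3 ≃ₗ[ℂ] V3), Arr A → 1 ≤ r →
  A.card = 3 * r + 2 → InF A r M →
  (∃ a ∈ A, ∃ c : ℂ, c ≠ 0 ∧ M a = c • ![1, 0, 0]) ∧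
  (∃ a ∈ A, ∃ c : ℂ, c ≠ 0 ∧ M a = c • ![0, 1, 0]) ∧
  ∀ ζ : ℂ, ζ ^ r = 1 → (∃ a ∈ A, ∃ c : ℂ, c ≠ 0 ∧ M a = c • ![1, -ζ, 0]) ∧
    (∃ a ∈ A, ∃ c : ℂ, c ≠ 0 ∧ M a = c • ![-ζ, 0, 1]) ∧
    (∃ a ∈ A, ∃ c : ℂ, c ≠ 0 ∧ M a = c • ![0, -ζ, 1])

/-- PNT, the point p.  Proof: p n = (M (Pi.single n 1)) 2; dotProduct a p = (M a) 2 by linearity; p is
not 0 as M is onto. -/
def SpecPNT : Prop := ∀ M : V3 ≃ₗ[ℂ] V3, ∃ p : V3, p ≠ 0 ∧ ∀ a, dotProduct a p = M a 2

/-- MDG.  Proof: a in A is through p iff M a 2 = 0 iff it is of the first three kinds.  Two lines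
through p: (1,0,0) and (0,1,0) (OCG).  For a, b in A not both through p: if one of them is through p
take c = this one (![a, b, c] has a repeated entry).  Both off p: two of the kind (-z,0,1), (-z',0,1):
c = (1,0,0); two of the kind (0,-z,1): c = (0,1,0); (-z,0,1) and (0,-z',1): c = (1,-z'/z,0): all from
OCG; dependence: the difference of the two is a multiple of c, apply M. -/
def SpecMDG : Prop := ∀ (A : Finset V3) (r : ℕ) (M : V3 ≃ₗ[ℂ] V3) (p : V3), Arr A → 1 ≤ r →
  A.card = 3 * r + 2 → InF A r M → p ≠ 0 → (∀ a, dotProduct a p = M a 2) → Mod A p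

/-- CAG.  Proof: the elements of Aq have one of the 2r kinds (-z,0,1), (0,-z,1), those of Ap one
of the r + 2 others; the maps to the kinds are injective (pairwise independence), so card Aq is at most 2r and
card Ap at most r + 2, and the sum is 3r + 2. -/
def SpecCAG : Prop := ∀ (A : Finset V3) (r : ℕ) (M : V3 ≃ₗ[ℂ] V3) (p : V3), Arr A → 1 ≤ r →
  A.card = 3 * r + 2 → InF A r M → (∀ a, dotProduct a p = M a 2) → (Aq A p).card = 2 * r

/-- DBG.  Proof: as OD/BKS.lean, with OCG.  r is at least 3.  A pair in Fn has exactly one entry off p: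
two lines off p are dependent with a third one, which is through p (MDG); two of the r + 2 at least 3 lines
through p are dependent with a third one.  A pair (a, b), a off p, b through p: for a = (-z,0,1):
b = (1,0,0) is dependent with (-w,0,1), w not z; b = (1,-o,0) with (0,-z o,1); so b = (0,1,0);
likewise a = (0,-z,1) forces b = (1,0,0).  So b is determined by a (pairwise independence), the
pairs with first entry off p inject into Aq, those with second entry off p too:
card Fn is at most 2 card Aq. -/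
def SpecDBG : Prop := ∀ (A : Finset V3) (r : ℕ) (M : V3 ≃ₗ[ℂ] V3) (p : V3), Arr A → 3 ≤ r →
  A.card = 3 * r + 2 → InF A r M → (∀ a, dotProduct a p = M a 2) →
  (Fn A).card ≤ 2 * (Aq A p).card

/-- BKG: p from PNT, then MDG, DBG, LOW. -/
def SpecBKG : Prop := ∀ A : Finset V3, Arr A → StdG A →
  ∃ p, Mod A p ∧ (Fn A).card = 2 * (Aq A p).card

/-- BKP, the polygon.  Proof: Std A: n, M; p from PNT.  As in EQ/BCK.lean: the elements with nonzero
third coordinate of M a (kind (z, z⁻¹, 1)) are n = card Aq elements and all n-th roots of unity z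
occur, the others (kind (1,-w,0)) too.  Mod A p: two lines through p (n at least 2); a, b in A not both
through p: if one is through p take it as c; (z,z⁻¹,1), (z',z'⁻¹,1): their difference is
(z - z')(1, -1/(z z'), 0), c of kind w = 1/(z z').  card Fn is at most card A = 2n by BCK and at
least 2 card Aq = 2n by LOW. -/
def SpecBKP : Prop := ∀ A : Finset V3, Arr A → Std A →
  ∃ p, Mod A p ∧ (Fn A).card = 2 * (Aq A p).card

end Pool.Agent.Lib.MP_70c3c6_co.FG
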