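import Pool.Agent.Lib.MP_70c3c6_co.FG.Spec

/-!
MP_70c3c6_co, module TAY: Taylor's formula to second order
-/

set_option autoImplicit false
open Classical Polynomial

namespace Pool.Agent.Lib.MP_70c3c6_co.FG

open Pool.Agent.Lib.MP_70c3c6_co.EQ

theorem TAYM.half : (C (1 / 2 : ℂ) : ℂ[X]) * 2 = 1 := by
  have h : (2 : ℂ[X]) = C (2 : ℂ) := (map_ofNat (C : ℂ →+* ℂ[X]) 2).symm
  rw [h, ← C_mul]
  norm_num

theorem specTAY : SpecTAY := by
  intro H f δ
  induction H using Polynomial.induction_on with
  | C a =>
    refine ⟨0, ?_⟩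
    simp
  | add p q hp hq =>
    obtain ⟨R, hR⟩ := hp
    obtain ⟨S, hS⟩ := hq
    refine ⟨R + S, ?_⟩
    simp only [derivative_add, eval_add, hR, hS]
    ring
  | monomial n a ih =>
    obtain ⟨R, hR⟩ := ih
    set G : ℂ[X][X] := C a * X ^ n with hG
    refine ⟨R * f + R * δ + C (1 / 2) * (derivative (derivative G)).eval f, ?_⟩
    have h0 : (C a * X ^ (n + 1) : ℂ[X][X]) = G * X := by
      rw [hG, pow_succ, mul_assoc]
    have h1 : derivative (G * X) = derivative G * X + G := by
      rw [derivative_mul, derivative_X, mul_one]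
    have h2 : derivative (derivative G * X + G) =
        derivative (derivative G) * X + derivative G + derivative G := by
      rw [derivative_add, derivative_mul, derivative_X, mul_one]
    rw [h0, h1, h2]
    simp only [eval_mul, eval_add, eval_X, hR]
    linear_combination (-(δ ^ 2 * (derivative G).eval f)) * TAYM.half

end Pool.Agent.Lib.MP_70c3c6_co.FG
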