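import Pool.Agent.Lib.MP_70c3c6_co.FG.Spec

/-!
MP_70c3c6_co, FG, module TOP: degree and leading coefficient of the derivative on a line.
-/

set_option autoImplicit false
open Classical Polynomial

namespace Pool.Agent.Lib.MP_70c3c6_co.FG

open Pool.Agent.Lib.MP_70c3c6_co.EQ

namespace TOPM

theorem lin_natDegree (a b : ℂ) : (C a * X + C b : ℂ[X]).natDegree ≤ 1 := natDegree_linear_le

theorem lin_coeff_one (a b : ℂ) : (C a * X + C b : ℂ[X]).coeff 1 = a := by
  rw [coeff_add, coeff_C_mul, coeff_X_one, coeff_C, if_neg one_ne_zero, mul_one, add_zero]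

theorem coeff_top {H : ℂ[X][X]} {m l : ℕ} (hl : l ≤ m) :
    (MPss.top H m).coeff l = (H.coeff l).coeff (m - l) := by
  unfold MPss.top
  rw [finsetSum_coeff, Finset.sum_eq_single l]
  · rw [coeff_C_mul_X_pow, if_pos rfl]
  · intro i _ hi
    rw [coeff_C_mul_X_pow, if_neg (Ne.symm hi)]
  · intro h
    exact absurd (Finset.mem_range.2 (by omega)) h

theorem coeff_deriv (H : ℂ[X][X]) (i j : ℕ) :
    ((derivative H).coeff i).coeff j = (H.coeff (i + 1)).coeff j * ((i : ℂ) + 1) := by
  rw [coeff_derivative]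
  have e : ((i : ℂ[X]) + 1) = C ((i : ℂ) + 1) := by simp
  rw [e, coeff_mul_C]

end TOPM

open TOPM in
theorem specTOP : SpecTOP := by
  intro ι _ x y m W H hx hm hm1 hW hWd hH hF i
  have h1 : MPss.top H m = X := by
    have hinj : Function.Injective fun i => - x i := fun a b hab => hx (neg_injective hab)
    refine eq_of_natDegree_lt_card_of_eval_eq _ _ hinj (fun j => ?_) ?_
    · have h2 := MPss.top_eval hH (lin_natDegree (- x j) (y j))
      rw [lin_coeff_one, hF j, coeff_C_mul] at h2
      have h3 : W.coeff m = 1 := by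
        rw [← hWd]
        exact hW.coeff_natDegree
      rw [h3, mul_one] at h2
      rw [← h2, eval_X]
    · refine lt_of_le_of_lt (max_le (MPss.top_natDegree_le H m) ?_) hm
      exact natDegree_X_le.trans hm1
  have h2 : ∀ l, l ≤ m → (H.coeff l).coeff (m - l) = if l = 1 then 1 else 0 := by
    intro l hl
    rw [← coeff_top hl, h1, coeff_X]
    by_cases h : l = 1
    · rw [if_pos h, if_pos h.symm]
    · rw [if_neg h, if_neg (Ne.symm h)]
  have h3 : MPss.TD (derivative H) (m - 1) := by
    intro a b hab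
    rw [coeff_deriv, hH (a + 1) b (by omega), zero_mul]
  refine ⟨h3.eval_natDegree_le (lin_natDegree _ _), ?_⟩
  rw [MPss.top_eval h3 (lin_natDegree _ _), lin_coeff_one]
  unfold MPss.top
  rw [eval_finsetSum, Finset.sum_eq_single 0]
  · rw [eval_mul, eval_C, coeff_deriv, Nat.sub_zero]
    have h4 := h2 1 hm1
    rw [if_pos rfl] at h4
    rw [h4]
    simp
  · intro a ha ha0
    rw [Finset.mem_range] at ha
    have h4 := h2 (a + 1) (by omega)
    rw [if_neg (by omega)] at h4
    have e : m - 1 - a = m - (a + 1) := by omega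
    rw [eval_mul, eval_C, coeff_deriv, e, h4, zero_mul, zero_mul]
  · intro h
    exact absurd (Finset.mem_range.2 (by omega)) h

end Pool.Agent.Lib.MP_70c3c6_co.FG
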