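import Pool.Agent.Lib.MP_70c3c6_co.FG.Spec

/-!
# MP_70c3c6_co, hive fg: module TWC

There are exactly two classes.
-/

set_option autoImplicit false
open Classical Polynomial

namespace Pool.Agent.Lib.MP_70c3c6_co.FG

open Pool.Agent.Lib.MP_70c3c6_co.EQ

namespace TWCM

theorem ms_comm {ι : Type} (x y : ι → ℂ) (i j : ι) : ms x y i j = ms x y j i := by
  unfold ms
  rw [← neg_sub (y j) (y i), ← neg_sub (x j) (x i), neg_div_neg_eq]

theorem inv_sub_inj {a b t : ℂ} (h : (a - t)⁻¹ = (b - t)⁻¹) : a = b := by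
  have h1 : a - t = b - t := inv_injective h
  exact sub_left_injective h1

/-- three numbers with the same square -/
theorem three_sq {a b c : ℂ} (h1 : a ^ 2 = b ^ 2) (h2 : a ^ 2 = c ^ 2) (hab : a ≠ b)
    (hac : a ≠ c) : b = c := by
  have h3 : a = -b := (sq_eq_sq_iff_eq_or_eq_neg.1 h1).resolve_left hab
  have h4 : a = -c := (sq_eq_sq_iff_eq_or_eq_neg.1 h2).resolve_left hac
  have h5 : -b = -c := h3.symm.trans h4
  exact neg_injective h5

end TWCM

open TWCM in
theorem specTWC (hLAM : SpecLAM) (hONE : SpecONE) (hRIC : SpecRIC) (hCEN : SpecCEN)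
    (hTWR : SpecTWR) : SpecTWC := by
  intro ι _ x y τ E hS
  obtain ⟨lam, hlam⟩ := hLAM ι x y τ E hS
  obtain ⟨i0, j0, hij0⟩ := hONE ι x y τ E hS
  obtain ⟨hR1, hR2⟩ := hRIC ι x y τ E lam hS hlam
  set T : Finset ℂ := Finset.univ.image τ with hT
  have hmemT : ∀ i, τ i ∈ T := fun i => Finset.mem_image_of_mem _ (Finset.mem_univ i)
  have htang' : ∀ i j, i ≠ j → ms x y i j ≠ τ j := by
    intro i j hij h
    rw [ms_comm] at h
    exact hS.tang j i (Ne.symm hij) h
  have hPT : PT T E lam := by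
    intro e he s hs hse
    obtain ⟨i, -, rfl⟩ := Finset.mem_image.1 hs
    obtain ⟨j, hji, hj⟩ := hS.cover i e he (Ne.symm hse)
    refine ⟨τ j, hmemT j, ?_, ?_⟩
    · rw [← hj]
      exact Ne.symm (htang' i j (Ne.symm hji))
    · have := hlam i j (Ne.symm hji)
      rwa [hj] at this
  -- the sum
  have key : ∀ t ∈ T, ∀ w ∈ T, t ≠ w →
      ((T.erase t).card : ℂ) * (w - t)⁻¹ = ∑ s ∈ T.erase t, (s - t)⁻¹ := by
    intro t ht w hw htw
    obtain ⟨i, -, hi⟩ := Finset.mem_image.1 ht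
    obtain ⟨j, -, hj⟩ := Finset.mem_image.1 hw
    obtain ⟨j', l', hj'j, hl'j, hj'l', hms⟩ := hR2 j
    obtain ⟨hτ1, hτ2⟩ := hR1 j j' l' hj'j hl'j hj'l' hms
    rw [hj] at hτ1 hτ2
    have hneq : ∀ a, τ a = w → a ≠ i := by
      rintro a ha rfl
      exact htw (hi.symm.trans ha)
    have hfac : ∀ a, τ a = w → ms x y i a ∈ E ∧ ms x y i a ≠ t ∧ ms x y i a ≠ w ∧
        (ms x y i a - t)⁻¹ + (ms x y i a - w)⁻¹ = lam (ms x y i a) := by
      intro a ha
      have hai : i ≠ a := Ne.symm (hneq a ha)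
      refine ⟨hS.chord i a hai, ?_, ?_, ?_⟩
      · have := hS.tang i a hai
        rwa [hi] at this
      · have := htang' i a hai
        rwa [ha] at this
      · have := hlam i a hai
        rwa [hi, ha] at this
    have hdiff : ∀ a b, τ a = w → τ b = w → a ≠ b → ms x y i a ≠ ms x y i b := by
      intro a b ha hb hab h
      have := (hR1 i a b (hneq a ha) (hneq b hb) hab h).1
      rw [ha, hi] at this
      exact htw this.symm
    obtain ⟨a1, a2, a3, a4⟩ := hfac j hj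
    obtain ⟨b1, b2, b3, b4⟩ := hfac j' hτ1
    obtain ⟨c1, c2, c3, c4⟩ := hfac l' hτ2
    rcases hTWR T E lam hPT t ht w hw htw _ a1 _ b1 a2 a3 b2 b3 a4 b4 with h1 | h1
    · rcases hTWR T E lam hPT t ht w hw htw _ a1 _ c1 a2 a3 c2 c3 a4 c4 with h2 | h2
      · exfalso
        have h3 := three_sq h1 h2
          (fun h => hdiff j j' hj hτ1 (Ne.symm hj'j) (inv_sub_inj (sub_left_injective h)))
          (fun h => hdiff j l' hj hτ2 (Ne.symm hl'j) (inv_sub_inj (sub_left_injective h)))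
        exact hdiff j' l' hτ1 hτ2 hj'l' (inv_sub_inj (sub_left_injective h3))
      · exact h2
    · exact h1
  have herase : ∀ t ∈ T, ∀ w ∈ T, t ≠ w → T.erase t = {w} := by
    intro t ht w hw htw
    rw [Finset.eq_singleton_iff_unique_mem]
    refine ⟨Finset.mem_erase.2 ⟨Ne.symm htw, hw⟩, ?_⟩
    intro s hs
    obtain ⟨hst, hsT⟩ := Finset.mem_erase.1 hs
    have h1 := (key t ht s hsT (Ne.symm hst)).trans (key t ht w hw htw).symm
    have h2 : ((T.erase t).card : ℂ) ≠ 0 := by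
      rw [Nat.cast_ne_zero]
      exact (Finset.card_pos.2 ⟨s, hs⟩).ne'
    exact inv_sub_inj (mul_left_cancel₀ h2 h1)
  have hcen : ∀ t ∈ T, ∀ w ∈ T, t ≠ w → ∀ i j, i ≠ j → τ i = t → τ j = t →
      ms x y i j = w := by
    intro t ht w hw htw i j hij hi hj
    have h1 : ms x y i j ≠ t := by
      have := hS.tang i j hij
      rwa [hi] at this
    have h2 := hlam i j hij
    rw [hi, hj] at h2
    have h3 := hCEN T E lam hPT t ht _ (hS.chord i j hij) h1 h2
    rw [herase t ht w hw htw, Finset.card_singleton, Finset.sum_singleton, Nat.cast_one,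
      one_mul] at h3
    exact inv_sub_inj h3
  refine ⟨τ i0, τ j0, ⟨hij0, ?_, ⟨i0, rfl⟩, ⟨j0, rfl⟩, ?_, ?_, hR1⟩⟩
  · intro i
    by_cases h : τ i = τ i0
    · exact Or.inl h
    · right
      have h1 : τ i ∈ T.erase (τ i0) := Finset.mem_erase.2 ⟨h, hmemT i⟩
      rw [herase _ (hmemT i0) _ (hmemT j0) hij0, Finset.mem_singleton] at h1
      exact h1
  · exact hcen _ (hmemT i0) _ (hmemT j0) hij0
  · exact hcen _ (hmemT j0) _ (hmemT i0) (Ne.symm hij0)

end Pool.Agent.Lib.MP_70c3c6_co.FG
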