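import Pool.Agent.Lib.MP_70c3c6_co.FG.Spec

/-!
MP_70c3c6_co, FG, module TWR: two directions exchanging the same two classes.
-/

set_option autoImplicit false
open Classical Polynomial

namespace Pool.Agent.Lib.MP_70c3c6_co.FG

open Pool.Agent.Lib.MP_70c3c6_co.EQ

namespace TWRM

theorem rel (a p p' q : ℂ) (ha : a ≠ 0) (hp : p ≠ 0) (hp' : p' ≠ 0) (hq : q ≠ 0)
    (h1 : a - p ≠ 0) (h2 : a - p' ≠ 0) (h3 : a - q ≠ 0)
    (h : (a - p)⁻¹ + (a - p')⁻¹ = a⁻¹ + (a - q)⁻¹) :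
    (p'⁻¹ - q⁻¹) * (p⁻¹ - q⁻¹) = (a⁻¹ - q⁻¹) ^ 2 := by
  rw [inv_add_inv h1 h2, inv_add_inv ha h3,
    div_eq_div_iff (mul_ne_zero h1 h2) (mul_ne_zero ha h3)] at h
  rw [inv_sub_inv hp' hq, inv_sub_inv hp hq, inv_sub_inv ha hq, div_mul_div_comm, div_pow,
    div_eq_div_iff (mul_ne_zero (mul_ne_zero hp' hq) (mul_ne_zero hp hq))
      (pow_ne_zero 2 (mul_ne_zero ha hq))]
  linear_combination (-q ^ 3) * h

theorem part (T E : Finset ℂ) (lam : ℂ → ℂ) (hPT : PT T E lam) (t w : ℂ) (htw : t ≠ w)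
    (e : ℂ) (he : e ∈ E) (h1 : e ≠ t) (h2 : e ≠ w) (h : (e - t)⁻¹ + (e - w)⁻¹ = lam e) :
    ∀ s ∈ (T.erase t).erase w, ∃ s' ∈ (T.erase t).erase w,
      ((s' - t)⁻¹ - (w - t)⁻¹) * ((s - t)⁻¹ - (w - t)⁻¹) = ((e - t)⁻¹ - (w - t)⁻¹) ^ 2 := by
  intro s hs
  rw [Finset.mem_erase, Finset.mem_erase] at hs
  obtain ⟨hsw, hst, hsT⟩ := hs
  by_cases hse : s = e
  · refine ⟨s, Finset.mem_erase.mpr ⟨hsw, Finset.mem_erase.mpr ⟨hst, hsT⟩⟩, ?_⟩
    rw [hse, sq]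
  · obtain ⟨s', hs'T, hs'e, hs'⟩ := hPT e he s hsT hse
    rw [← h] at hs'
    have hs't : s' ≠ t := by
      intro hh
      rw [hh, add_comm] at hs'
      have h5 := add_left_cancel hs'
      exact hsw (sub_right_injective (inv_injective h5))
    have hs'w : s' ≠ w := by
      intro hh
      rw [hh] at hs'
      have h5 := add_right_cancel hs'
      exact hst (sub_right_injective (inv_injective h5))
    refine ⟨s', Finset.mem_erase.mpr ⟨hs'w, Finset.mem_erase.mpr ⟨hs't, hs'T⟩⟩, ?_⟩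
    have e1 : e - s = (e - t) - (s - t) := by ring
    have e2 : e - s' = (e - t) - (s' - t) := by ring
    have e3 : e - w = (e - t) - (w - t) := by ring
    have n1 : (e - t) - (s - t) ≠ 0 := by
      rw [← e1]; exact sub_ne_zero.mpr fun hh => hse hh.symm
    have n2 : (e - t) - (s' - t) ≠ 0 := by
      rw [← e2]; exact sub_ne_zero.mpr fun hh => hs'e hh.symm
    have n3 : (e - t) - (w - t) ≠ 0 := by
      rw [← e3]; exact sub_ne_zero.mpr h2
    rw [e1, e2, e3] at hs'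
    exact rel (e - t) (s - t) (s' - t) (w - t) (sub_ne_zero.mpr h1) (sub_ne_zero.mpr hst)
      (sub_ne_zero.mpr hs't) (sub_ne_zero.mpr htw.symm) n1 n2 n3 hs'

theorem perm (T : Finset ℂ) (z : ℂ → ℂ) (hz : Function.Injective z) (ρ ρ' : ℂ) (hρ' : ρ' ≠ 0)
    (h : ∀ s ∈ T, ∃ s' ∈ T, z s' * ρ = ρ' * z s) : ρ = ρ' ∨ ∑ s ∈ T, z s = 0 := by
  have hc : ∃ f : ℂ → ℂ, ∀ s ∈ T, f s ∈ T ∧ z (f s) * ρ = ρ' * z s := by
    refine ⟨fun s => if hs : s ∈ T then (h s hs).choose else s, fun s hs => ?_⟩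
    simp only [hs, dif_pos]
    exact (h s hs).choose_spec
  obtain ⟨f, hf⟩ := hc
  have hinj : ∀ s ∈ T, ∀ s' ∈ T, f s = f s' → s = s' := by
    intro s hs s' hs' hh
    have h1 := (hf s hs).2
    have h2 := (hf s' hs').2
    rw [hh, h2] at h1
    exact (hz (mul_left_cancel₀ hρ' h1)).symm
  have himg : T.image f = T := by
    refine Finset.eq_of_subset_of_card_le ?_ ?_
    · intro u hu
      obtain ⟨s, hs, rfl⟩ := Finset.mem_image.mp hu
      exact (hf s hs).1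
    · rw [Finset.card_image_of_injOn]
      intro s hs s' hs' hh
      exact hinj s hs s' hs' hh
  have hsum : (∑ s ∈ T, z s) * ρ = ρ' * ∑ s ∈ T, z s := by
    calc (∑ s ∈ T, z s) * ρ = (∑ s ∈ T.image f, z s) * ρ := by rw [himg]
      _ = (∑ s ∈ T, z (f s)) * ρ := by rw [Finset.sum_image fun a ha b hb => hinj a ha b hb]
      _ = ∑ s ∈ T, z (f s) * ρ := by rw [Finset.sum_mul]
      _ = ∑ s ∈ T, ρ' * z s := Finset.sum_congr rfl fun s hs => (hf s hs).2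
      _ = ρ' * ∑ s ∈ T, z s := by rw [Finset.mul_sum]
  have h0 : (ρ - ρ') * ∑ s ∈ T, z s = 0 := by linear_combination hsum
  rcases mul_eq_zero.mp h0 with h1 | h1
  · exact Or.inl (sub_eq_zero.mp h1)
  · exact Or.inr h1

end TWRM

open TWRM

theorem specTWR : SpecTWR := by
  intro T E lam hPT t _ w hw htw e he e' he' h1 h2 h3 h4 h5 h6
  have P := part T E lam hPT t w htw e he h1 h2 h5
  have P' := part T E lam hPT t w htw e' he' h3 h4 h6
  have hzinj : Function.Injective fun s : ℂ => (s - t)⁻¹ - (w - t)⁻¹ := by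
    intro a b hab
    have h7 := sub_left_injective hab
    exact sub_left_injective (inv_injective h7)
  have hρ' : ((e' - t)⁻¹ - (w - t)⁻¹) ^ 2 ≠ 0 := by
    refine pow_ne_zero 2 fun h0 => h4 ?_
    exact sub_left_injective (inv_injective (sub_eq_zero.mp h0))
  have hk : ∀ s ∈ (T.erase t).erase w, ∃ s' ∈ (T.erase t).erase w,
      ((s' - t)⁻¹ - (w - t)⁻¹) * ((e - t)⁻¹ - (w - t)⁻¹) ^ 2 =
        ((e' - t)⁻¹ - (w - t)⁻¹) ^ 2 * ((s - t)⁻¹ - (w - t)⁻¹) := by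
    intro s hs
    obtain ⟨s1, hs1, r1⟩ := P s hs
    obtain ⟨s2, hs2, r2⟩ := P' s1 hs1
    refine ⟨s2, hs2, ?_⟩
    rw [← r1, ← r2]
    ring
  rcases perm ((T.erase t).erase w) (fun s : ℂ => (s - t)⁻¹ - (w - t)⁻¹) hzinj _ _ hρ' hk with h | h
  · exact Or.inl h
  · right
    have hwT : w ∈ T.erase t := Finset.mem_erase.mpr ⟨htw.symm, hw⟩
    have hs : ∑ s ∈ T.erase t, ((s - t)⁻¹ - (w - t)⁻¹) = 0 := by
      rw [← Finset.add_sum_erase _ _ hwT, h, sub_self, add_zero]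
    rw [Finset.sum_sub_distrib, Finset.sum_const, nsmul_eq_mul] at hs
    exact (sub_eq_zero.mp hs).symm

end Pool.Agent.Lib.MP_70c3c6_co.FG
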